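import Pool.Agent.TF82.Main

/-! Covers by at most `k` cycles when the independence number is at most `k + 1`. -/

namespace Pool.Agent.TFL

open List Pool.Agent.TF82

universe u

set_option linter.unusedSectionVars false
set_option linter.unusedVariables false

variable {V : Type u} [DecidableEq V]

theorem dU_clique [Fintype V] {G : SimpleGraph V} [DecidableRel G.Adj] {Z : Finset V}
    {T : V → Finset V} (hD : Dec G Finset.univ Z T) {i : V} (hi : i ∈ Z) {w : V} (hw : w ∈ T i) :
    dU G Finset.univ w + 1 = (Z.filter (fun z => G.Adj w z)).card + (T i).card := by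
  have h1 : Finset.univ.filter (fun x => G.Adj w x) =
      (T i).erase w ∪ Z.filter (fun z => G.Adj w z) := by
    ext x
    rw [Finset.mem_filter, Finset.mem_union, Finset.mem_erase, Finset.mem_filter]
    constructor
    · rintro ⟨_, h⟩
      rcases hD.nb i hi w hw x (Finset.mem_univ _) h with h1 | h1
      · refine Or.inl ⟨?_, h1⟩
        rintro rfl
        exact G.loopless.irrefl _ h
      · exact Or.inr ⟨h1, h⟩
    · rintro (⟨h1, h2⟩ | h1)
      · exact ⟨Finset.mem_univ _, hD.clique i hi w hw x h2 h1.symm⟩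
      · exact ⟨Finset.mem_univ _, h1.2⟩
  have h2 : Disjoint ((T i).erase w) (Z.filter (fun z => G.Adj w z)) := by
    rw [Finset.disjoint_left]
    intro x hx hx'
    exact hD.hTZ i hi x (Finset.mem_of_mem_erase hx) (Finset.mem_filter.1 hx').1
  unfold dU
  rw [h1, Finset.card_union_of_disjoint h2, Finset.card_erase_of_mem hw]
  have := Finset.card_pos.2 ⟨w, hw⟩
  omega

theorem dec_indep {G : SimpleGraph V} {U Z : Finset V} {T : V → Finset V}
    (hD : Dec G U Z T) {u : V → V} (hu : ∀ i ∈ Z, u i ∈ T i) :
    Set.InjOn u Z ∧ G.IsIndepSet ((Z.image u : Finset V) : Set V) := by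
  have hinj : Set.InjOn u Z := by
    intro i hi j hj hij
    by_contra hne
    exact hD.disj i hi j hj hne (u i) (hu i hi) (hij ▸ hu j hj)
  refine ⟨hinj, ?_⟩
  intro a ha b hb hab hadj
  rw [Finset.mem_coe, Finset.mem_image] at ha hb
  obtain ⟨i, hi, rfl⟩ := ha
  obtain ⟨j, hj, rfl⟩ := hb
  have hij : i ≠ j := fun h => hab (by rw [h])
  rcases hD.nb i hi (u i) (hu i hi) (u j) (hD.hT j hj (hu j hj)) hadj with h | h
  · exact hD.disj i hi j hj hij _ h (hu j hj)
  · exact hD.hTZ j hj _ (hu j hj) h

/-- the case of independence number at most `k + 1` -/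
theorem cover_alpha [Fintype V] (k : ℕ) (G : SimpleGraph V) [DecidableRel G.Adj]
    (hC : ∀ I : Finset V, G.IsIndepSet (I : Set V) → ∀ v ∈ I, I.card + 1 ≤ dU G Finset.univ v)
    (hσ : ∀ I : Finset V, G.IsIndepSet (I : Set V) → I.card = k + 1 →
      Fintype.card V ≤ ∑ v ∈ I, dU G Finset.univ v)
    (hα : ∀ I : Finset V, G.IsIndepSet (I : Set V) → I.card ≤ k + 1) : Cov G k := by
  classical
  by_contra hno
  have hN : ∀ L, CovU G Finset.univ L → k + 1 ≤ L.length := by
    intro L hL
    by_contra hcon
    push Not at hcon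
    exact hno ⟨L, by omega, hL.1, hL.2.1, fun x => (hL.2.2 x).2 (Finset.mem_univ _)⟩
  obtain ⟨Z, T, hZ, hD⟩ := exists_dec (k + 1) Finset.univ (fun I _ hI _ v hv => hC I hI v hv)
    (fun I _ hI => hα I hI) hN
  obtain ⟨L, hL1, hL2⟩ := fewer hD (by omega) (by
    intro i hi w hw
    -- choose representatives with `w` at `i`
    have hne : ∀ j ∈ Z, ∃ x, x ∈ T j := by
      intro j hj
      obtain ⟨p, hp, _⟩ := hD.own j hj
      exact ⟨p, hp⟩
    choose! u0 hu0 using hne
    have hu : ∀ j ∈ Z, (if j = i then w else u0 j) ∈ T j := by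
      intro j hj
      by_cases h : j = i
      · rw [if_pos h, h]; exact hw
      · rw [if_neg h]; exact hu0 j hj
    obtain ⟨hinj, hind⟩ := dec_indep hD (u := fun j => if j = i then w else u0 j) hu
    have h1 := hC _ hind w (Finset.mem_image.2 ⟨i, hi, by simp⟩)
    rw [Finset.card_image_of_injOn hinj] at h1
    have h2 := dU_clique hD hi hw
    omega) (by
    intro u hu
    obtain ⟨hinj, hind⟩ := dec_indep hD hu
    have h1 := hσ _ hind (by rw [Finset.card_image_of_injOn hinj, hZ])
    rw [Finset.sum_image hinj] at h1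
    have hcard : Fintype.card V = Z.card + ∑ i ∈ Z, (T i).card := by
      rw [← Finset.card_biUnion (fun i hi j hj hij => by
        rw [Function.onFun, Finset.disjoint_left]
        exact hD.disj i hi j hj hij)]
      rw [← Finset.card_union_of_disjoint, ← Finset.card_univ]
      · congr 1
        ext x
        simp only [Finset.mem_univ, Finset.mem_union, Finset.mem_biUnion, true_iff]
        exact hD.cov x (Finset.mem_univ _)
      · rw [Finset.disjoint_left]
        intro x hx hx'
        rw [Finset.mem_biUnion] at hx'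
        obtain ⟨i, hi, hxi⟩ := hx'
        exact hD.hTZ i hi x hxi hx
    have hsum : ∑ i ∈ Z, (dU G Finset.univ (u i) + 1) =
        ∑ i ∈ Z, ((Z.filter (fun z => G.Adj (u i) z)).card + (T i).card) :=
      Finset.sum_congr rfl (fun i hi => dU_clique hD hi (hu i hi))
    rw [Finset.sum_add_distrib, Finset.sum_add_distrib, Finset.sum_const, smul_eq_mul,
      mul_one] at hsum
    omega)
  have := hN L hL1
  omega

end Pool.Agent.TFL
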