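import Pool.Agent.TF82.Base

/-! Covers by cycles with a bound on the number of label changes. -/

namespace Pool.Agent.TFL

open List Pool.Agent.TF82

universe u

set_option linter.unusedSectionVars false
set_option linter.unusedVariables false

variable {V : Type u} [DecidableEq V]

/-- weight of a pair: 1 if the labels differ -/
def w (q : V → ℕ) (x y : V) : ℕ := if q x = q y then 0 else 1

theorem w_symm (q : V → ℕ) (x y : V) : w q x y = w q y x := by
  unfold w
  by_cases h : q x = q y
  · rw [if_pos h, if_pos h.symm]
  · rw [if_neg h, if_neg (fun h' => h h'.symm)]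

/-- number of label changes along a list -/
def chi (q : V → ℕ) : List V → ℕ
  | [] => 0
  | [_] => 0
  | x :: y :: t => w q x y + chi q (y :: t)

/-- number of label changes along a cyclic list -/
def cchi (q : V → ℕ) : List V → ℕ
  | [] => 0
  | x :: t => chi q ((x :: t) ++ [x])

/-- covers of the vertex set by at most `k` disjoint cycles with at most `m` label changes -/
def CovX (G : SimpleGraph V) (q : V → ℕ) (k m : ℕ) : Prop :=
  ∃ L : List (List V), L.length ≤ k ∧ (∀ c ∈ L, CycL G c) ∧ L.flatten.Nodup ∧
    (∀ x, x ∈ L.flatten) ∧ (L.map (cchi q)).sum ≤ m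

/-- any two vertices of `U` are joined inside `U` -/
def Conn (G : SimpleGraph V) (U : Finset V) : Prop := ∀ u ∈ U, ∀ v ∈ U, Reach G U u v

/-- no set of fewer than `K` vertices separates `Q` -/
def KC (G : SimpleGraph V) (Q : Finset V) (K : ℕ) : Prop :=
  ∀ X ⊆ Q, X.card < K → Conn G (Q \ X)

theorem chi_cons_cons (q : V → ℕ) (x y : V) (t : List V) :
    chi q (x :: y :: t) = w q x y + chi q (y :: t) := rfl

theorem chi_append (q : V → ℕ) : ∀ (A B : List V) (x : V),
    chi q (A ++ x :: B) = chi q (A ++ [x]) + chi q (x :: B) := by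
  intro A
  induction A with
  | nil => intro B x; simp [chi]
  | cons a A ih =>
    intro B x
    rcases A with _ | ⟨b, A⟩
    · simp [chi]
    · have := ih B x
      simp only [List.cons_append, chi_cons_cons] at this ⊢
      omega

theorem chi_reverse (q : V → ℕ) : ∀ l : List V, chi q l.reverse = chi q l := by
  intro l
  induction l with
  | nil => rfl
  | cons a l ih =>
    rcases l with _ | ⟨b, l⟩
    · rfl
    · have e1 : (a :: b :: l).reverse = l.reverse ++ b :: [a] := by simp
      have e2 : (b :: l).reverse = l.reverse ++ [b] := by simp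
      rw [e2] at ih
      have e3 : chi q [b, a] = w q b a + chi q [a] := rfl
      have e4 : chi q [a] = 0 := rfl
      rw [e1, chi_append q l.reverse [a] b, ih, chi_cons_cons q a b l, w_symm q a b]
      omega

/-- `cchi` of a rotated list -/
theorem cchi_rot (q : V → ℕ) (A B : List V) : cchi q (A ++ B) = cchi q (B ++ A) := by
  rcases A with _ | ⟨a, A⟩
  · simp
  rcases B with _ | ⟨b, B⟩
  · simp
  have h1 : cchi q ((a :: A) ++ (b :: B)) = chi q ((a :: A) ++ [b]) + chi q ((b :: B) ++ [a]) := by
    show chi q (((a :: A) ++ (b :: B)) ++ [a]) = _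
    rw [List.append_assoc, List.cons_append (a := b) (as := B) (bs := [a]), chi_append]
  have h2 : cchi q ((b :: B) ++ (a :: A)) = chi q ((b :: B) ++ [a]) + chi q ((a :: A) ++ [b]) := by
    show chi q (((b :: B) ++ (a :: A)) ++ [b]) = _
    rw [List.append_assoc, List.cons_append (a := a) (as := A) (bs := [b]), chi_append]
  omega

theorem cchi_isRotated (q : V → ℕ) {l l' : List V} (h : l ~r l') : cchi q l = cchi q l' := by
  obtain ⟨n, rfl⟩ := h
  rw [List.rotate_eq_drop_append_take_mod]
  rw [← cchi_rot, List.take_append_drop]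

theorem CovX.cov {G : SimpleGraph V} {q : V → ℕ} {k m : ℕ} (h : CovX G q k m) : Cov G k := by
  obtain ⟨L, h1, h2, h3, h4, _⟩ := h
  exact ⟨L, h1, h2, h3, h4⟩

end Pool.Agent.TFL
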