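import Pool.Agent.TFL.Defs

/-! Removing one added edge inside a highly connected part. -/

namespace Pool.Agent.TFL

open List Pool.Agent.TF82

universe u

set_option linter.unusedSectionVars false
set_option linter.unusedVariables false

variable {V : Type u} [DecidableEq V]

theorem cchi_eq_chi (q : V → ℕ) {p : List V} {a b : V} (ha : p.head? = some a)
    (hb : p.getLast? = some b) : cchi q p = chi q p + w q b a := by
  rcases p with _ | ⟨x, t⟩
  · simp at ha
  simp at ha
  subst ha
  obtain ⟨A, hA⟩ : ∃ A, x :: t = A ++ [b] := by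
    rcases List.eq_nil_or_concat (x :: t) with h | ⟨A, c, h⟩
    · simp at h
    · rw [List.concat_eq_append] at h
      rw [h, List.getLast?_append] at hb
      simp at hb
      exact ⟨A, by rw [h, hb]⟩
  show chi q ((x :: t) ++ [x]) = _
  rw [hA, List.append_assoc, List.singleton_append, chi_append]
  rfl

theorem chi_zero (q : V → ℕ) {n : ℕ} : ∀ {l : List V}, (∀ x ∈ l, q x = n) → chi q l = 0 := by
  intro l
  induction l with
  | nil => intro _; rfl
  | cons x l ih =>
    intro h
    rcases l with _ | ⟨y, l⟩
    · rfl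
    · rw [chi_cons_cons, ih (fun z hz => h z (List.mem_cons_of_mem _ hz))]
      unfold w
      rw [if_pos ((h x (by simp)).trans (h y (by simp)).symm)]

theorem chi_tail_le (q : V → ℕ) (x : V) (l : List V) : chi q l ≤ chi q (x :: l) := by
  rcases l with _ | ⟨y, l⟩
  · exact Nat.zero_le _
  · rw [chi_cons_cons]; omega

theorem chi_append_le_left (q : V → ℕ) : ∀ (A B : List V), chi q A ≤ chi q (A ++ B) := by
  intro A B
  rcases List.eq_nil_or_concat A with rfl | ⟨A', x, rfl⟩
  · exact Nat.zero_le _
  · rw [List.concat_eq_append]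
    have h1 : chi q ((A' ++ [x]) ++ B) = chi q (A' ++ [x]) + chi q (x :: B) := by
      rw [List.append_assoc, List.singleton_append, chi_append]
    omega

theorem chi_append_le_right (q : V → ℕ) : ∀ (A B : List V), chi q B ≤ chi q (A ++ B) := by
  intro A
  induction A with
  | nil => intro B; exact le_rfl
  | cons a A ih =>
    intro B
    exact (ih B).trans (chi_tail_le q a (A ++ B))

/-- opening a cycle at the new edge, with the rotation -/
theorem open_rot {G G' : SimpleGraph V} {u v : V}
    (hG' : ∀ x y, G'.Adj x y → G.Adj x y ∨ (x = u ∧ y = v) ∨ (x = v ∧ y = u))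
    {cc : List V} (hc : CycL G' cc) (hnc : ¬ CycL G cc) :
    ∃ p : List V, ∃ a b : V, cc ~r p ∧ p.IsChain G.Adj ∧ p.head? = some a ∧
      p.getLast? = some b ∧ ((a = u ∧ b = v) ∨ (a = v ∧ b = u)) := by
  have key : ∀ p : List V, CycL G' p → ∀ a b, p.head? = some a → p.getLast? = some b →
      ¬ G.Adj b a → p.IsChain G.Adj ∧ ((a = u ∧ b = v) ∨ (a = v ∧ b = u)) := by
    intro p hp a b ha hb hnab
    have hab : (a = u ∧ b = v) ∨ (a = v ∧ b = u) := by
      rcases hG' b a (hp.2.2.2 b hb a ha) with h | h | h
      · exact absurd h hnab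
      · exact Or.inr ⟨h.2, h.1⟩
      · exact Or.inl ⟨h.2, h.1⟩
    exact ⟨chain_of_chain_edge hG' hp.1 hp.2.1 hp.2.2.1 ha hb hab, hab⟩
  have hc0 : cc ≠ [] := by
    rintro rfl
    have := hc.2.1
    simp at this
  by_cases hch : cc.IsChain G.Adj
  · have ha : cc.head? = some (cc.head hc0) := List.head?_eq_some_head hc0
    have hb : cc.getLast? = some (cc.getLast hc0) := List.getLast?_eq_getLast_of_ne_nil hc0
    have hnab : ¬ G.Adj (cc.getLast hc0) (cc.head hc0) := by
      intro h
      apply hnc
      refine ⟨hc.1, hc.2.1, hch, ?_⟩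
      intro x hx y hy
      rw [hb] at hx
      rw [ha] at hy
      simp only [Option.mem_def, Option.some.injEq] at hx hy
      rw [← hx, ← hy]
      exact h
    obtain ⟨h1, h2⟩ := key cc hc _ _ ha hb hnab
    exact ⟨cc, _, _, List.IsRotated.refl _, h1, ha, hb, h2⟩
  · rw [List.isChain_iff_getElem] at hch
    push Not at hch
    obtain ⟨i, hi, hnadj⟩ := hch
    have hsplit : cc = cc.take (i + 1) ++ cc.drop (i + 1) := (List.take_append_drop _ _).symm
    have hp : CycL G' (cc.drop (i + 1) ++ cc.take (i + 1)) := by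
      apply CycL.rot
      rwa [← hsplit]
    have ha : (cc.drop (i + 1) ++ cc.take (i + 1)).head? = some (cc[i + 1]'hi) := by
      rw [List.head?_append, List.head?_drop, List.getElem?_eq_getElem hi]
      simp
    have hb : (cc.drop (i + 1) ++ cc.take (i + 1)).getLast? = some (cc[i]'(by omega)) := by
      rw [List.getLast?_append, List.getLast?_take]
      simp only [Nat.add_eq_zero_iff, one_ne_zero, and_false, if_false]
      rw [Nat.add_sub_cancel, List.getElem?_eq_getElem (by omega)]
      simp
    obtain ⟨h1, h2⟩ := key _ hp _ _ ha hb hnadj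
    refine ⟨_, _, _, ?_, h1, ha, hb, h2⟩
    conv_lhs => rw [hsplit]
    exact List.isRotated_append

/-- no shortcut inside `Q` -/
def NoShort (G : SimpleGraph V) (Q : Finset V) (l : List V) : Prop :=
  ∀ A p S t B, l = A ++ p :: (S ++ t :: B) → S ≠ [] → p ∈ Q → t ∈ Q → (∀ x ∈ S, x ∈ Q) →
    ¬ G.Adj p t

theorem NoShort.suffix {G : SimpleGraph V} {Q : Finset V} {A B : List V}
    (h : NoShort G Q (A ++ B)) : NoShort G Q B := by
  intro A' p S t B' hB hS hp ht hSQ
  exact h (A ++ A') p S t B' (by rw [hB]; simp) hS hp ht hSQ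

theorem NoShort.left {G : SimpleGraph V} {Q : Finset V} {A B : List V}
    (h : NoShort G Q (A ++ B)) : NoShort G Q A := by
  intro A' p S t B' hB hS hp ht hSQ
  exact h A' p S t (B' ++ B) (by rw [hB]; simp) hS hp ht hSQ

theorem run_indep {G : SimpleGraph V} {Q : Finset V} : ∀ (n : ℕ) (R : List V), R.length ≤ n →
    R.Nodup → (∀ x ∈ R, x ∈ Q) → NoShort G Q R →
    ∃ I : Finset V, (∀ x ∈ I, x ∈ R) ∧ G.IsIndepSet (I : Set V) ∧ R.length ≤ 2 * I.card := by
  intro n
  induction n using Nat.strong_induction_on with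
  | _ n ih =>
    intro R hn hnd hQ hS
    rcases R with _ | ⟨p, R⟩
    · exact ⟨∅, by simp, by simp [SimpleGraph.IsIndepSet], by simp⟩
    rcases R with _ | ⟨s, R⟩
    · refine ⟨{p}, by simp, ?_, by simp⟩
      intro x hx y hy hxy
      simp at hx hy
      exact absurd (hx.trans hy.symm) hxy
    · have hn' : R.length < n := by
        simp only [List.length_cons] at hn
        omega
      have hsuf : NoShort G Q R := by
        have : p :: s :: R = [p, s] ++ R := rfl
        rw [this] at hS
        exact hS.suffix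
      obtain ⟨I, hI1, hI2, hI3⟩ := ih R.length hn' R le_rfl
        (by
          rw [List.nodup_cons, List.nodup_cons] at hnd
          exact hnd.2.2)
        (fun x hx => hQ x (by simp [hx])) hsuf
      have hpR : p ∉ R := by
        intro h
        rw [List.nodup_cons] at hnd
        exact hnd.1 (List.mem_cons_of_mem _ h)
      have hpI : p ∉ I := fun h => hpR (hI1 p h)
      have hadj : ∀ t ∈ I, ¬ G.Adj p t := by
        intro t ht
        obtain ⟨S, B, hSB⟩ := List.append_of_mem (hI1 t ht)
        refine hS [] p (s :: S) t B (by rw [hSB]; simp) (by simp) (hQ p (by simp))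
          (hQ t (by rw [hSB]; simp)) ?_
        intro x hx
        apply hQ
        rw [hSB]
        rcases List.mem_cons.1 hx with rfl | hx
        · simp
        · simp [hx]
      refine ⟨insert p I, ?_, ?_, ?_⟩
      · intro x hx
        rcases Finset.mem_insert.1 hx with rfl | hx
        · simp
        · have := hI1 x hx
          simp [this]
      · intro x hx y hy hxy
        rw [Finset.mem_coe, Finset.mem_insert] at hx hy
        rcases hx with rfl | hx <;> rcases hy with rfl | hy
        · exact absurd rfl hxy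
        · exact hadj y hy
        · intro h
          exact hadj x hx h.symm
        · exact hI2 hx hy hxy
      · rw [Finset.card_insert_of_notMem hpI]
        simp only [List.length_cons]
        omega

theorem split_first (Q : Finset V) : ∀ t : List V, (∃ x ∈ t, x ∉ Q) →
    ∃ r z s, t = r ++ z :: s ∧ (∀ x ∈ r, x ∈ Q) ∧ z ∉ Q := by
  intro t
  induction t with
  | nil => rintro ⟨x, hx, _⟩; simp at hx
  | cons a t ih =>
    rintro ⟨x, hx, hPx⟩
    by_cases ha : a ∈ Q
    · rcases List.mem_cons.1 hx with rfl | hx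
      · exact absurd ha hPx
      · obtain ⟨r, z, s, h1, h2, h3⟩ := ih ⟨x, hx, hPx⟩
        refine ⟨a :: r, z, s, by rw [h1]; simp, ?_, h3⟩
        intro y hy
        rcases List.mem_cons.1 hy with rfl | hy
        · exact ha
        · exact h2 y hy
    · exact ⟨[], a, t, by simp, by simp, ha⟩

/-- number of elements of `l` in `Q` -/
def inQ (Q : Finset V) (l : List V) : ℕ := (l.filter (fun x => decide (x ∈ Q))).length

theorem inQ_append (Q : Finset V) (A B : List V) : inQ Q (A ++ B) = inQ Q A + inQ Q B := by
  unfold inQ; rw [List.filter_append, List.length_append]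

theorem inQ_le_length (Q : Finset V) (A : List V) : inQ Q A ≤ A.length := by
  unfold inQ; exact List.length_filter_le _ _

theorem inQ_cons_notMem {Q : Finset V} {x : V} (hx : x ∉ Q) (A : List V) :
    inQ Q (x :: A) = inQ Q A := by
  unfold inQ; rw [List.filter_cons_of_neg]; simpa using hx

theorem inQ_perm (Q : Finset V) {A B : List V} (h : A.Perm B) : inQ Q A = inQ Q B := by
  unfold inQ; exact (h.filter _).length_eq

theorem run_count {G : SimpleGraph V} {q : V → ℕ} {Q : Finset V} {n0 a : ℕ}
    (hQ : ∀ x, x ∈ Q ↔ q x = n0)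
    (hα : ∀ I : Finset V, G.IsIndepSet (I : Set V) → I.card ≤ a) :
    ∀ (n : ℕ) (l : List V), l.length ≤ n → l.Nodup → NoShort G Q l →
      inQ Q l ≤ 2 * a * (chi q l + 1) := by
  intro n
  induction n using Nat.strong_induction_on with
  | _ n ih =>
    intro l hn hnd hS
    by_cases hall : ∃ x ∈ l, x ∉ Q
    · obtain ⟨R, x, B, rfl, hR, hx⟩ := split_first Q l hall
      have hB : inQ Q B ≤ 2 * a * (chi q B + 1) := by
        apply ih B.length ?_ B le_rfl
        · rw [List.nodup_append, List.nodup_cons] at hnd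
          exact hnd.2.1.2
        · have : R ++ x :: B = (R ++ [x]) ++ B := by simp
          rw [this] at hS
          exact hS.suffix
        · simp only [List.length_append, List.length_cons] at hn
          omega
      have hcount : inQ Q (R ++ x :: B) = inQ Q R + inQ Q B := by
        rw [inQ_append, inQ_cons_notMem hx]
      rcases R with _ | ⟨r0, R'⟩
      · rw [hcount]
        have h0 : inQ Q ([] : List V) = 0 := rfl
        have h1 : chi q B ≤ chi q (x :: B) := chi_tail_le q x B
        rw [h0, Nat.zero_add]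
        refine hB.trans (Nat.mul_le_mul_left _ ?_)
        simpa using h1
      · have hRn : (r0 :: R').Nodup := (List.nodup_append.1 hnd).1
        obtain ⟨I, hI1, hI2, hI3⟩ := run_indep (G := G) (Q := Q) _ (r0 :: R') le_rfl hRn hR hS.left
        have hI4 := hα I hI2
        have hRlen : inQ Q (r0 :: R') ≤ 2 * a := (inQ_le_length _ _).trans (by omega)
        have hchi : 1 + chi q B ≤ chi q ((r0 :: R') ++ x :: B) := by
          rw [chi_append]
          have h1 := chi_tail_le q x B
          have h2 : 1 ≤ chi q ((r0 :: R') ++ [x]) := by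
            obtain ⟨R1, r1, hR1⟩ : ∃ R1 r1, r0 :: R' = R1 ++ [r1] := by
              rcases List.eq_nil_or_concat (r0 :: R') with h | ⟨A, c, h⟩
              · simp at h
              · exact ⟨A, c, by rw [h, List.concat_eq_append]⟩
            rw [hR1, List.append_assoc, List.singleton_append, chi_append]
            have h3 : chi q [r1, x] = w q r1 x := rfl
            have h4 : w q r1 x = 1 := by
              unfold w
              rw [if_neg]
              intro h
              apply hx
              rw [hQ, ← h, ← hQ]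
              apply hR
              rw [hR1]
              simp
            omega
          omega
        rw [hcount]
        calc inQ Q (r0 :: R') + inQ Q B ≤ 2 * a + 2 * a * (chi q B + 1) := Nat.add_le_add hRlen hB
          _ = 2 * a * ((1 + chi q B) + 1) := by ring
          _ ≤ 2 * a * (chi q ((r0 :: R') ++ x :: B) + 1) :=
            Nat.mul_le_mul_left _ (Nat.add_le_add_right hchi 1)
    · push Not at hall
      obtain ⟨I, hI1, hI2, hI3⟩ := run_indep (G := G) (Q := Q) _ l le_rfl hnd hall hS
      have hI4 := hα I hI2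
      have h1 : inQ Q l ≤ 2 * a := (inQ_le_length _ _).trans (by omega)
      refine h1.trans ?_
      nlinarith [Nat.zero_le (2 * a * chi q l)]

/-- the structure to be minimised -/
structure Str (G : SimpleGraph V) (q : V → ℕ) (Q : Finset V) (k m : ℕ) (s t : V)
    (P : List V) (L : List (List V)) : Prop where
  ch : P.IsChain G.Adj
  hd : P.head? = some s
  lt : P.getLast? = some t
  cyc : ∀ c ∈ L, CycL G c
  nd : (P ++ L.flatten).Nodup
  cov : ∀ x, x ∉ Q → x ∈ P ++ L.flatten
  len : L.length + 1 ≤ k
  lab : chi q P + (L.map (cchi q)).sum ≤ m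

theorem exists_min_str {G : SimpleGraph V} {q : V → ℕ} {Q : Finset V} {k m : ℕ} {s t : V}
    (h : ∃ P L, Str G q Q k m s t P L) :
    ∃ P L, Str G q Q k m s t P L ∧ ∀ P' L', Str G q Q k m s t P' L' →
      (P ++ L.flatten).length ≤ (P' ++ L'.flatten).length := by
  classical
  have h' : ∃ n : ℕ, ∃ P L, Str G q Q k m s t P L ∧ (P ++ L.flatten).length = n := by
    obtain ⟨P, L, hPL⟩ := h
    exact ⟨_, P, L, hPL, rfl⟩
  obtain ⟨P, L, hPL, hlen⟩ := Nat.find_spec h'
  refine ⟨P, L, hPL, ?_⟩
  intro P' L' hPL'
  rw [hlen]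
  exact Nat.find_min' h' ⟨P', L', hPL', rfl⟩

theorem chain_short {G : SimpleGraph V} {A S B : List V} {p z : V}
    (h : (A ++ p :: (S ++ z :: B)).IsChain G.Adj) (hadj : G.Adj p z) :
    (A ++ p :: z :: B).IsChain G.Adj := by
  rw [List.isChain_split] at h ⊢
  refine ⟨h.1, ?_⟩
  have h2 : (z :: B).IsChain G.Adj := by
    have := h.2
    rw [show p :: (S ++ z :: B) = (p :: S) ++ z :: B from rfl, List.isChain_split] at this
    exact this.2
  exact List.IsChain.cons_cons hadj h2

theorem chi_short (q : V → ℕ) {A S B : List V} {p z : V} (h : q p = q z) :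
    chi q (A ++ p :: z :: B) ≤ chi q (A ++ p :: (S ++ z :: B)) := by
  rw [chi_append q A (z :: B) p, chi_append q A (S ++ z :: B) p, chi_cons_cons]
  have h1 := chi_append_le_right q (p :: S) (z :: B)
  have h2 : w q p z = 0 := by unfold w; rw [if_pos h]
  rw [List.cons_append] at h1
  omega

theorem cchi_short (q : V → ℕ) {A S B : List V} {p z w0 : V} (h : q p = q z) :
    cchi q (w0 :: (A ++ p :: z :: B)) ≤ cchi q (w0 :: (A ++ p :: (S ++ z :: B))) := by
  show chi q ((w0 :: (A ++ p :: z :: B)) ++ [w0]) ≤
    chi q ((w0 :: (A ++ p :: (S ++ z :: B))) ++ [w0])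
  have h1 := chi_short q (A := w0 :: A) (S := S) (B := B ++ [w0]) h
  simpa using h1

theorem cyc_short {G : SimpleGraph V} {A S B : List V} {p z w0 : V}
    (h : CycL G (w0 :: (A ++ p :: (S ++ z :: B)))) (hadj : G.Adj p z) :
    CycL G (w0 :: (A ++ p :: z :: B)) := by
  have hsub : List.Sublist (w0 :: (A ++ p :: z :: B)) (w0 :: (A ++ p :: (S ++ z :: B))) := by
    apply List.Sublist.cons_cons
    apply List.Sublist.append_left
    apply List.Sublist.cons_cons
    exact List.sublist_append_right _ _
  refine ⟨h.1.sublist hsub, ?_, ?_, ?_⟩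
  · simp only [List.length_cons, List.length_append]
    omega
  · exact chain_short (A := w0 :: A) h.2.2.1 hadj
  · intro x hx y hy
    apply h.2.2.2 x ?_ y ?_
    · rw [show w0 :: (A ++ p :: (S ++ z :: B)) = (w0 :: (A ++ p :: S)) ++ (z :: B) by simp,
        List.getLast?_append_of_ne_nil _ (by simp)]
      rw [show w0 :: (A ++ p :: z :: B) = (w0 :: (A ++ [p])) ++ (z :: B) by simp,
        List.getLast?_append_of_ne_nil _ (by simp)] at hx
      exact hx
    · simpa using hy

theorem perm_mid (P c : List V) (L1 L2 : List (List V)) :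
    (P ++ (L1 ++ c :: L2).flatten).Perm (c ++ (P ++ (L1 ++ L2).flatten)) := by
  rw [List.flatten_append, List.flatten_append, List.flatten_cons]
  exact ((List.perm_append_comm_assoc _ _ _).append_left P).trans
    (List.perm_append_comm_assoc _ _ _)

theorem Str.replace {G : SimpleGraph V} {q : V → ℕ} {Q : Finset V} {k m : ℕ} {s t : V}
    {P c c' : List V} {L1 L2 : List (List V)} (h : Str G q Q k m s t P (L1 ++ c :: L2))
    (hc' : CycL G c') (hsub : ∀ x ∈ c', x ∈ c) (hcov : ∀ x ∈ c, x ∉ Q → x ∈ c')
    (hchi : cchi q c' ≤ cchi q c) : Str G q Q k m s t P (L1 ++ c' :: L2) := by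
  have hnd := (perm_mid P c L1 L2).nodup_iff.1 h.nd
  rw [List.nodup_append] at hnd
  refine ⟨h.ch, h.hd, h.lt, ?_, ?_, ?_, ?_, ?_⟩
  · intro d hd
    rw [List.mem_append, List.mem_cons] at hd
    rcases hd with hd | hd | hd
    · exact h.cyc d (by simp [hd])
    · rw [hd]; exact hc'
    · exact h.cyc d (by simp [hd])
  · rw [(perm_mid P c' L1 L2).nodup_iff, List.nodup_append]
    exact ⟨hc'.1, hnd.2.1, fun x hx y hy => hnd.2.2 x (hsub x hx) y hy⟩
  · intro x hx
    have h1 := (perm_mid P c L1 L2).mem_iff.1 (h.cov x hx)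
    rw [(perm_mid P c' L1 L2).mem_iff]
    rw [List.mem_append] at h1 ⊢
    rcases h1 with h1 | h1
    · exact Or.inl (hcov x h1 hx)
    · exact Or.inr h1
  · have := h.len
    simp only [List.length_append, List.length_cons] at this ⊢
    omega
  · have := h.lab
    simp only [List.map_append, List.map_cons, List.sum_append, List.sum_cons] at this ⊢
    omega

theorem Str.drop {G : SimpleGraph V} {q : V → ℕ} {Q : Finset V} {k m : ℕ} {s t : V}
    {P c : List V} {L1 L2 : List (List V)} (h : Str G q Q k m s t P (L1 ++ c :: L2))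
    (hcov : ∀ x ∈ c, x ∈ Q) : Str G q Q k m s t P (L1 ++ L2) := by
  have hnd := (perm_mid P c L1 L2).nodup_iff.1 h.nd
  rw [List.nodup_append] at hnd
  refine ⟨h.ch, h.hd, h.lt, ?_, hnd.2.1, ?_, ?_, ?_⟩
  · intro d hd
    rw [List.mem_append] at hd
    apply h.cyc d
    rw [List.mem_append, List.mem_cons]
    tauto
  · intro x hx
    have h1 := (perm_mid P c L1 L2).mem_iff.1 (h.cov x hx)
    rw [List.mem_append] at h1
    rcases h1 with h1 | h1
    · exact absurd (hcov x h1) hx
    · exact h1
  · have := h.len
    simp only [List.length_append, List.length_cons] at this ⊢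
    omega
  · have := h.lab
    simp only [List.map_append, List.map_cons, List.sum_append, List.sum_cons] at this ⊢
    omega

theorem Str.path {G : SimpleGraph V} {q : V → ℕ} {Q : Finset V} {k m : ℕ} {s t : V}
    {L : List (List V)} {A S B : List V} {p z : V}
    (h : Str G q Q k m s t (A ++ p :: (S ++ z :: B)) L) (hadj : G.Adj p z) (hq : q p = q z)
    (hS : ∀ x ∈ S, x ∈ Q) : Str G q Q k m s t (A ++ p :: z :: B) L := by
  have hsub : List.Sublist (A ++ p :: z :: B) (A ++ p :: (S ++ z :: B)) := by
    apply List.Sublist.append_left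
    apply List.Sublist.cons_cons
    exact List.sublist_append_right _ _
  refine ⟨chain_short h.ch hadj, ?_, ?_, h.cyc, ?_, ?_, h.len, ?_⟩
  · have := h.hd
    rcases A with _ | ⟨a0, A⟩
    · simpa using this
    · simpa using this
  · have := h.lt
    rw [show A ++ p :: (S ++ z :: B) = (A ++ p :: S) ++ (z :: B) by simp,
        List.getLast?_append_of_ne_nil _ (by simp)] at this
    rw [show A ++ p :: z :: B = (A ++ [p]) ++ (z :: B) by simp,
        List.getLast?_append_of_ne_nil _ (by simp)]
    exact this
  · exact h.nd.sublist (hsub.append_right _)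
  · intro x hx
    have h1 := h.cov x hx
    simp only [List.mem_append, List.mem_cons] at h1 ⊢
    rcases h1 with (h1 | h1 | h1 | h1 | h1) | h1
    · tauto
    · tauto
    · exact absurd (hS x h1) hx
    · tauto
    · tauto
    · tauto
  · exact (Nat.add_le_add_right (chi_short q hq) _).trans h.lab

theorem flatten_count {q : V → ℕ} {Q : Finset V} {a : ℕ} : ∀ L : List (List V),
    (∀ c ∈ L, inQ Q c ≤ 2 * a * (cchi q c + 1)) →
    inQ Q L.flatten ≤ 2 * a * ((L.map (cchi q)).sum + L.length) := by
  intro L
  induction L with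
  | nil => intro _; exact Nat.zero_le _
  | cons c L ih =>
    intro h
    have h1 := ih (fun d hd => h d (List.mem_cons_of_mem _ hd))
    have h2 := h c (by simp)
    rw [List.flatten_cons, inQ_append, List.map_cons, List.sum_cons, List.length_cons]
    calc inQ Q c + inQ Q L.flatten ≤ 2 * a * (cchi q c + 1) +
          2 * a * ((L.map (cchi q)).sum + L.length) := Nat.add_le_add h2 h1
      _ = 2 * a * (cchi q c + (L.map (cchi q)).sum + (L.length + 1)) := by ring

/-- a minimal structure meets `Q` in few vertices -/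
theorem min_count {G : SimpleGraph V} {q : V → ℕ} {Q : Finset V} {n0 a k m : ℕ} {s t : V}
    {P : List V} {L : List (List V)}
    (hQ : ∀ x, x ∈ Q ↔ q x = n0)
    (hα : ∀ I : Finset V, G.IsIndepSet (I : Set V) → I.card ≤ a)
    (h : Str G q Q k m s t P L)
    (hmin : ∀ P' L', Str G q Q k m s t P' L' →
      (P ++ L.flatten).length ≤ (P' ++ L'.flatten).length) :
    inQ Q (P ++ L.flatten) ≤ 2 * a * (m + k) := by
  have hPn : P.Nodup := (List.nodup_append.1 h.nd).1
  have hP : NoShort G Q P := by
    intro A p S z B hl hS hp hz hSQ hadj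
    subst hl
    have h1 := h.path hadj (((hQ p).1 hp).trans ((hQ z).1 hz).symm) hSQ
    have h2 := hmin _ _ h1
    have h3 : S.length ≠ 0 := fun h0 => hS (List.length_eq_zero_iff.1 h0)
    simp only [List.length_append, List.length_cons] at h2
    omega
  have hPc := run_count hQ hα _ P le_rfl hPn hP
  have hL : ∀ c ∈ L, inQ Q c ≤ 2 * a * (cchi q c + 1) := by
    intro c hc
    have hcc := h.cyc c hc
    obtain ⟨L1, L2, rfl⟩ := List.append_of_mem hc
    have hex : ∃ x ∈ c, x ∉ Q := by
      by_contra hcon
      push Not at hcon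
      have h1 := h.drop hcon
      have h2 := hmin _ _ h1
      have h3 := (perm_mid P c L1 L2).length_eq
      rw [List.length_append (as := c)] at h3
      have := hcc.2.1
      omega
    obtain ⟨w0, hw0, hw0Q⟩ := hex
    obtain ⟨r, hr⟩ := rot_cons hw0
    have hcr : CycL G (w0 :: r) := hcc.of_isRotated hr
    have hns : NoShort G Q (w0 :: r) := by
      intro A p S z B hl hS hp hz hSQ hadj
      rcases A with _ | ⟨a0, A⟩
      · simp only [List.nil_append, List.cons.injEq] at hl
        exact hw0Q (hl.1 ▸ hp)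
      · simp only [List.cons_append, List.cons.injEq] at hl
        obtain ⟨hl1, hl2⟩ := hl
        subst hl1
        subst hl2
        have h1 : CycL G (w0 :: (A ++ p :: z :: B)) := cyc_short hcr hadj
        have h2 : cchi q (w0 :: (A ++ p :: z :: B)) ≤ cchi q c := by
          rw [cchi_isRotated q hr]
          exact cchi_short q (((hQ p).1 hp).trans ((hQ z).1 hz).symm)
        have h3 := h.replace h1 (fun x hx => by
          rw [hr.mem_iff]
          simp only [List.mem_append, List.mem_cons] at hx ⊢
          tauto) (fun x hx hxQ => by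
          rw [hr.mem_iff] at hx
          simp only [List.mem_append, List.mem_cons] at hx ⊢
          rcases hx with hx | hx | hx | hx | hx | hx
          · tauto
          · tauto
          · tauto
          · exact absurd (hSQ x hx) hxQ
          · tauto
          · tauto) h2
        have h4 := hmin _ _ h3
        have h5 := (perm_mid P c L1 L2).length_eq
        have h6 := (perm_mid P (w0 :: (A ++ p :: z :: B)) L1 L2).length_eq
        have h7 := hr.perm.length_eq
        have h8 : S.length ≠ 0 := fun h0 => hS (List.length_eq_zero_iff.1 h0)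
        rw [List.length_append (as := c)] at h5
        rw [List.length_append (as := (w0 :: (A ++ p :: z :: B)))] at h6
        simp only [List.length_append, List.length_cons] at h7 h6 h5 h4
        omega
    have h1 := run_count hQ hα _ (w0 :: r) le_rfl hcr.1 hns
    rw [inQ_perm Q hr.perm]
    refine h1.trans (Nat.mul_le_mul_left _ (Nat.add_le_add_right ?_ 1))
    rw [cchi_isRotated q hr]
    exact chi_append_le_left q (w0 :: r) [w0]
  have hLc := flatten_count L hL
  rw [inQ_append]
  have h1 := h.len
  have h2 := h.lab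
  calc inQ Q P + inQ Q L.flatten ≤ 2 * a * (chi q P + 1) +
        2 * a * ((L.map (cchi q)).sum + L.length) := Nat.add_le_add hPc hLc
    _ = 2 * a * ((chi q P + (L.map (cchi q)).sum) + (L.length + 1)) := by ring
    _ ≤ 2 * a * (m + k) := Nat.mul_le_mul_left _ (Nat.add_le_add h2 h1)

/-- closing the path of a minimal structure through the rest of `Q` -/
theorem close_up [Fintype V] {G : SimpleGraph V} {q : V → ℕ} {Q : Finset V} {n0 a k m K : ℕ}
    {s t : V} {P : List V} {L : List (List V)}
    (hham : ∀ Q' : Finset V, (∀ I ⊆ Q', G.IsIndepSet (I : Set V) → I.card ≤ a) →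
      KC G Q' (a + 1) → ∀ x ∈ Q', ∀ y ∈ Q', x ≠ y →
      ∃ p : List V, p.Nodup ∧ p.IsChain G.Adj ∧ p.head? = some x ∧ p.getLast? = some y ∧
        ∀ z, z ∈ p ↔ z ∈ Q')
    (hst : s ≠ t) (hQ : ∀ x, x ∈ Q ↔ q x = n0) (hsQ : s ∈ Q) (htQ : t ∈ Q)
    (hα : ∀ I : Finset V, G.IsIndepSet (I : Set V) → I.card ≤ a)
    (hK : KC G Q K) (hKb : (2 * a) * (m + k + 1) + a + 3 ≤ K) (hQK : K ≤ Q.card)
    (h : Str G q Q k m s t P L)
    (hmin : ∀ P' L', Str G q Q k m s t P' L' →
      (P ++ L.flatten).length ≤ (P' ++ L'.flatten).length) : CovX G q k m := by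
  have hcount := min_count hQ hα h hmin
  have hsP : s ∈ P := List.mem_of_head? h.hd
  have htP : t ∈ P := List.mem_of_getLast? h.lt
  set F : Finset V := (P ++ L.flatten).toFinset with hF
  have hFc : (Q ∩ F).card ≤ 2 * a * (m + k) := by
    refine le_trans ?_ hcount
    unfold inQ
    rw [← List.toFinset_card_of_nodup (h.nd.filter _)]
    apply Finset.card_le_card
    intro x hx
    rw [Finset.mem_inter, hF, List.mem_toFinset] at hx
    rw [List.mem_toFinset, List.mem_filter]
    exact ⟨hx.2, by simpa using hx.1⟩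
  have hb1 : 2 * a * (m + k) ≤ 2 * a * (m + k + 1) := Nat.mul_le_mul_left _ (Nat.le_succ _)
  set Y : Finset V := (Q ∩ F) \ {s, t} with hY
  have hYc : Y.card ≤ 2 * a * (m + k) := (Finset.card_le_card Finset.sdiff_subset).trans hFc
  have hYQ : Y ⊆ Q := Finset.sdiff_subset.trans Finset.inter_subset_left
  have hsY : s ∉ Y := by simp [hY]
  have htY : t ∉ Y := by simp [hY]
  have hKC : KC G (Q \ Y) (a + 1) := by
    intro X hX hXc
    have e : (Q \ Y) \ X = Q \ (Y ∪ X) := by
      ext x; simp only [Finset.mem_sdiff, Finset.mem_union]; tauto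
    rw [e]
    apply hK
    · exact Finset.union_subset hYQ (hX.trans Finset.sdiff_subset)
    · have := Finset.card_union_le Y X
      omega
  obtain ⟨p, hpn, hpc, hph, hpl, hpm⟩ := hham (Q \ Y) (fun I _ hI => hα I hI) hKC
    t (by simp [htQ, htY]) s (by simp [hsQ, hsY]) hst.symm
  -- decompose p
  obtain ⟨R, hR⟩ : ∃ R, p = t :: (R ++ [s]) := by
    rcases p with _ | ⟨x, p⟩
    · simp at hph
    simp at hph
    subst hph
    rcases List.eq_nil_or_concat p with rfl | ⟨R, y, rfl⟩
    · simp at hpl
      exact absurd hpl.symm hst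
    · refine ⟨R, ?_⟩
      rw [List.concat_eq_append] at hpl ⊢
      rw [show x :: (R ++ [y]) = (x :: R) ++ [y] from rfl, List.getLast?_append] at hpl
      simp at hpl
      rw [hpl]
  subst hR
  have hRn : R.Nodup ∧ s ∉ R ∧ t ∉ R := by
    rw [List.nodup_cons, List.nodup_append] at hpn
    refine ⟨hpn.2.1, fun hs => hpn.2.2.2 s hs s (by simp) rfl, fun ht => hpn.1 (by simp [ht])⟩
  have hRQ : ∀ x ∈ R, x ∈ Q ∧ x ∉ F := by
    intro x hx
    have h1 : x ∈ Q \ Y := (hpm x).1 (by simp [hx])
    rw [Finset.mem_sdiff] at h1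
    refine ⟨h1.1, fun hxF => h1.2 ?_⟩
    rw [hY, Finset.mem_sdiff, Finset.mem_inter]
    refine ⟨⟨h1.1, hxF⟩, ?_⟩
    simp only [Finset.mem_insert, Finset.mem_singleton]
    rintro (rfl | rfl)
    · exact hRn.2.1 hx
    · exact hRn.2.2 hx
  have hR0 : R ≠ [] := by
    rintro rfl
    have h1 : Q \ F = ∅ := by
      rw [Finset.eq_empty_iff_forall_notMem]
      intro x hx
      rw [Finset.mem_sdiff] at hx
      have h2 : x ∈ Q \ Y := by
        rw [Finset.mem_sdiff]
        refine ⟨hx.1, fun h3 => hx.2 ?_⟩
        rw [hY, Finset.mem_sdiff, Finset.mem_inter] at h3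
        exact h3.1.2
      have h3 := (hpm x).2 h2
      simp at h3
      rcases h3 with rfl | rfl
      · exact hx.2 (by rw [hF, List.mem_toFinset]; simp [htP])
      · exact hx.2 (by rw [hF, List.mem_toFinset]; simp [hsP])
    have h2 := Finset.card_sdiff_add_card_inter Q F
    rw [h1, Finset.card_empty] at h2
    omega
  obtain ⟨P0, hP0⟩ : ∃ P0, P = P0 ++ [t] := by
    rcases List.eq_nil_or_concat P with h1 | ⟨A, c, h1⟩
    · rw [h1] at htP; simp at htP
    · rw [List.concat_eq_append] at h1
      have h2 := h.lt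
      rw [h1, List.getLast?_append] at h2
      simp at h2
      exact ⟨A, by rw [h1, h2]⟩
  have hchain : (P ++ (R ++ [s])).IsChain G.Adj := by
    rw [hP0, List.append_assoc, List.singleton_append, List.isChain_split]
    refine ⟨?_, hpc⟩
    have := h.ch
    rwa [hP0] at this
  have hRP : ∀ x ∈ R, x ∉ P := by
    intro x hx hxP
    exact (hRQ x hx).2 (by rw [hF, List.mem_toFinset]; simp [hxP])
  have hnPR : (P ++ R).Nodup := by
    rw [List.nodup_append]
    refine ⟨(List.nodup_append.1 h.nd).1, hRn.1, ?_⟩
    rintro x hx y hy rfl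
    exact hRP x hy hx
  have hcyc : CycL G (P ++ R) := by
    refine ⟨hnPR, ?_, ?_, ?_⟩
    · have h1 : 1 ≤ R.length := List.length_pos_of_ne_nil hR0
      have h2 : 2 ≤ P.length := by
        rw [hP0]
        have h3 : P0 ≠ [] := by
          rintro rfl
          have := h.hd
          rw [hP0] at this
          simp at this
          exact hst this.symm
        have := List.length_pos_of_ne_nil h3
        simp only [List.length_append, List.length_cons, List.length_nil]
        omega
      rw [List.length_append]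
      omega
    · rw [← List.append_assoc] at hchain
      exact (List.isChain_append.1 hchain).1
    · intro x hx y hy
      rw [← List.append_assoc, List.isChain_append] at hchain
      have h1 : y = s := by
        have := h.hd
        rcases P with _ | ⟨p0, P⟩
        · simp at this
        · simp at this hy
          rw [← hy, this]
      exact h1 ▸ hchain.2.2 x hx s (by simp)
  have hcchi : cchi q (P ++ R) = chi q P := by
    have h1 : ∃ P', P ++ R = s :: P' := by
      have := h.hd
      rcases P with _ | ⟨p0, P⟩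
      · simp at this
      · simp at this
        exact ⟨P ++ R, by rw [this]; rfl⟩
    obtain ⟨P', hP'⟩ := h1
    rw [hP']
    show chi q ((s :: P') ++ [s]) = _
    rw [← hP', hP0]
    rw [show (P0 ++ [t] ++ R) ++ [s] = P0 ++ t :: (R ++ [s]) by simp, chi_append]
    rw [chi_zero (n := n0) q (l := t :: (R ++ [s])), Nat.add_zero]
    intro x hx
    rw [← hQ]
    have h2 := (hpm x).1 hx
    exact (Finset.mem_sdiff.1 h2).1
  refine ⟨(P ++ R) :: L, ?_, ?_, ?_, ?_, ?_⟩
  · rw [List.length_cons]; exact h.len
  · intro c hc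
    rcases List.mem_cons.1 hc with rfl | hc
    · exact hcyc
    · exact h.cyc c hc
  · rw [List.flatten_cons]
    have h1 : (P ++ R ++ L.flatten).Perm (R ++ (P ++ L.flatten)) := by
      rw [List.append_assoc]
      exact List.perm_append_comm_assoc _ _ _
    rw [h1.nodup_iff, List.nodup_append]
    refine ⟨hRn.1, h.nd, ?_⟩
    rintro x hx y hy rfl
    exact (hRQ x hx).2 (by rw [hF, List.mem_toFinset]; exact hy)
  · intro x
    rw [List.flatten_cons]
    by_cases hxF : x ∈ F
    · rw [hF, List.mem_toFinset, List.mem_append] at hxF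
      rw [List.mem_append, List.mem_append]
      tauto
    · by_cases hxQ : x ∈ Q
      · have h1 : x ∈ Q \ Y := by
          rw [Finset.mem_sdiff]
          refine ⟨hxQ, fun h3 => hxF ?_⟩
          rw [hY, Finset.mem_sdiff, Finset.mem_inter] at h3
          exact h3.1.2
        have h2 := (hpm x).2 h1
        simp only [List.mem_cons, List.mem_append, List.not_mem_nil, or_false] at h2
        rw [List.mem_append, List.mem_append]
        rcases h2 with rfl | h2 | rfl
        · exact Or.inl (Or.inl htP)
        · exact Or.inl (Or.inr h2)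
        · exact Or.inl (Or.inl hsP)
      · exact absurd (by rw [hF, List.mem_toFinset]; exact h.cov x hxQ) hxF
  · rw [List.map_cons, List.sum_cons, hcchi]
    exact h.lab

/-- M2, with the Hamiltonian connectedness as a hypothesis -/
theorem edge_removal_of [Fintype V] {G G' : SimpleGraph V} (q : V → ℕ) {a k m K : ℕ} {u v : V}
    (hham : ∀ Q' : Finset V, (∀ I ⊆ Q', G.IsIndepSet (I : Set V) → I.card ≤ a) →
      KC G Q' (a + 1) → ∀ x ∈ Q', ∀ y ∈ Q', x ≠ y →
      ∃ p : List V, p.Nodup ∧ p.IsChain G.Adj ∧ p.head? = some x ∧ p.getLast? = some y ∧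
        ∀ z, z ∈ p ↔ z ∈ Q')
    (huv : u ≠ v) (hq : q u = q v)
    (hG' : ∀ x y, G'.Adj x y → G.Adj x y ∨ (x = u ∧ y = v) ∨ (x = v ∧ y = u))
    (hα : ∀ I : Finset V, G.IsIndepSet (I : Set V) → I.card ≤ a)
    (hK : KC G (Finset.univ.filter (fun x => q x = q u)) K)
    (hKb : (2 * a) * (m + k + 1) + a + 3 ≤ K)
    (hQ : K ≤ (Finset.univ.filter (fun x => q x = q u)).card)
    (h : CovX G' q k m) : CovX G q k m := by
  obtain ⟨L, hL1, hL2, hL3, hL4, hL5⟩ := h
  by_cases hall : ∀ c ∈ L, CycL G c
  · exact ⟨L, hL1, hall, hL3, hL4, hL5⟩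
  push Not at hall
  obtain ⟨c, hcL, hnc⟩ := hall
  obtain ⟨p, s, t, hpc, hpch, hps, hpt, hst⟩ := open_rot hG' (hL2 c hcL) hnc
  obtain ⟨L1, L2, rfl⟩ := List.append_of_mem hcL
  set M := L1 ++ L2 with hM
  have hperm : (L1 ++ c :: L2).flatten.Perm (p ++ M.flatten) := by
    refine (List.Perm.flatten List.perm_middle).trans ?_
    rw [List.flatten_cons]
    exact hpc.perm.append_right _
  have hnod : (p ++ M.flatten).Nodup := hperm.nodup_iff.1 hL3
  have hmem : ∀ x, x ∈ p ++ M.flatten := fun x => hperm.mem_iff.1 (hL4 x)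
  have hap : s ∈ p := List.mem_of_head? hps
  have hbp : t ∈ p := List.mem_of_getLast? hpt
  have hnod' := hnod
  rw [List.nodup_append] at hnod
  obtain ⟨hpn, hMn, hdis⟩ := hnod
  have hpdis : ∀ c' ∈ M, ∀ x ∈ p, x ∉ c' := by
    intro c' hc' x hx hxc
    exact hdis x hx x (List.mem_flatten.2 ⟨c', hc', hxc⟩) rfl
  have hMc : ∀ c' ∈ M, CycL G c' := by
    intro c' hc'
    have h1 : CycL G' c' := hL2 c' (by
      rw [hM, List.mem_append] at hc'
      rw [List.mem_append, List.mem_cons]
      tauto)
    have hua : ∀ x ∈ c', x ≠ s := fun x hx hxa => hpdis c' hc' s hap (hxa ▸ hx)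
    have hub : ∀ x ∈ c', x ≠ t := fun x hx hxa => hpdis c' hc' t hbp (hxa ▸ hx)
    have himp : ∀ x y, x ∈ c' → y ∈ c' → G'.Adj x y → G.Adj x y := by
      intro x y hx hy hxy
      rcases hG' x y hxy with h | h | h
      · exact h
      · exfalso
        rcases hst with h' | h'
        · exact hua x hx (h.1.trans h'.1.symm)
        · exact hub x hx (h.1.trans h'.2.symm)
      · exfalso
        rcases hst with h' | h'
        · exact hub x hx (h.1.trans h'.2.symm)
        · exact hua x hx (h.1.trans h'.1.symm)
    refine ⟨h1.1, h1.2.1, List.IsChain.imp_of_mem_imp himp h1.2.2.1, ?_⟩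
    intro x hx y hy
    exact himp x y (List.mem_of_getLast? hx) (List.mem_of_head? hy) (h1.2.2.2 x hx y hy)
  set Q : Finset V := Finset.univ.filter (fun x => q x = q u) with hQdef
  have hQm : ∀ x, x ∈ Q ↔ q x = q u := by
    intro x
    rw [hQdef, Finset.mem_filter]
    simp
  have hne : s ≠ t := by
    rcases hst with ⟨rfl, rfl⟩ | ⟨rfl, rfl⟩
    · exact huv
    · exact huv.symm
  have hsQ : s ∈ Q := by
    rw [hQm]
    rcases hst with ⟨rfl, rfl⟩ | ⟨rfl, rfl⟩
    · rfl
    · exact hq.symm
  have htQ : t ∈ Q := by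
    rw [hQm]
    rcases hst with ⟨rfl, rfl⟩ | ⟨rfl, rfl⟩
    · exact hq.symm
    · rfl
  have hstr : Str G q Q k m s t p M := by
    refine ⟨hpch, hps, hpt, hMc, hnod', fun x _ => hmem x, ?_, ?_⟩
    · simp only [List.length_append, List.length_cons, hM] at hL1 ⊢
      omega
    · have h1 : chi q p ≤ cchi q c := by
        rw [cchi_isRotated q hpc, cchi_eq_chi q hps hpt]
        exact Nat.le_add_right _ _
      simp only [List.map_append, List.map_cons, List.sum_append, List.sum_cons, hM] at hL5 ⊢
      omega
  obtain ⟨P, L', hPL, hmin⟩ := exists_min_str ⟨p, M, hstr⟩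
  exact close_up hham hne hQm hsQ htQ hα hK hKb hQ hPL hmin

end Pool.Agent.TFL
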