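import Pool.Agent.TFL.Defs

/-! Exchange of two edges in a family of disjoint cycles. -/

namespace Pool.Agent.TFL

open List Pool.Agent.TF82

universe u

set_option linter.unusedSectionVars false
set_option linter.unusedVariables false

variable {V : Type u} [DecidableEq V]

theorem chi_join (q : V → ℕ) : ∀ (A B : List V) (a b : V), A.getLast? = some a →
    B.head? = some b → chi q (A ++ B) = chi q A + w q a b + chi q B := by
  intro A
  induction A with
  | nil => intro B a b h; simp at h
  | cons c A ih =>
    intro B a b ha hb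
    rcases B with _ | ⟨b', B⟩
    · simp at hb
    simp only [List.head?_cons, Option.some.injEq] at hb
    subst hb
    rcases A with _ | ⟨c', A⟩
    · simp only [List.getLast?_singleton, Option.some.injEq] at ha
      subst ha
      have e : chi q [c] = 0 := rfl
      simp only [List.cons_append, List.nil_append, chi_cons_cons, e]
      omega
    · have ha' : (c' :: A).getLast? = some a := by
        rw [← ha]
        simp [List.getLast?_cons_cons]
      have := ih (b' :: B) a b' ha' rfl
      simp only [List.cons_append, chi_cons_cons] at this ⊢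
      omega

theorem cchi_eq (q : V → ℕ) {l : List V} {a b : V} (ha : l.getLast? = some a)
    (hb : l.head? = some b) : cchi q l = chi q l + w q a b := by
  rcases l with _ | ⟨b', l⟩
  · simp at hb
  simp only [List.head?_cons, Option.some.injEq] at hb
  subst hb
  have h := chi_join q (b' :: l) [b'] a b' ha rfl
  have e : chi q [b'] = 0 := rfl
  show chi q ((b' :: l) ++ [b']) = _
  rw [h, e]
  omega

/-- Two paths with adjacent ends form a cycle. -/
theorem cyc_of_two {G : SimpleGraph V} {P Q : List V} {a b c d : V} (hn : (P ++ Q).Nodup)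
    (hl : 3 ≤ (P ++ Q).length) (hP : P.IsChain G.Adj) (hQ : Q.IsChain G.Adj)
    (ha : P.head? = some a) (hb : P.getLast? = some b) (hc : Q.head? = some c)
    (hd : Q.getLast? = some d) (hbd : G.Adj b d) (hac : G.Adj a c) : CycL G (P ++ Q.reverse) := by
  refine ⟨?_, ?_, ?_, ?_⟩
  · rw [List.nodup_append] at hn ⊢
    refine ⟨hn.1, List.nodup_reverse.2 hn.2.1, ?_⟩
    intro x hx z hz
    exact hn.2.2 x hx z (List.mem_reverse.1 hz)
  · simpa using hl
  · rw [List.isChain_append]
    refine ⟨hP, ?_, ?_⟩
    · rw [List.isChain_reverse]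
      exact hQ.imp (fun _ _ h => h.symm)
    · intro x hx z hz
      rw [hb] at hx
      rw [List.head?_reverse, hd] at hz
      simp only [Option.mem_def, Option.some.injEq] at hx hz
      rw [← hx, ← hz]
      exact hbd
  · intro x hx z hz
    rw [List.getLast?_append, List.getLast?_reverse, hc] at hx
    rw [List.head?_append, ha] at hz
    simp only [Option.some_or, Option.mem_def, Option.some.injEq] at hx hz
    rw [← hx, ← hz]
    exact hac.symm

theorem cchi_two (q : V → ℕ) {P Q : List V} {a b c d : V}
    (ha : P.head? = some a) (hb : P.getLast? = some b) (hc : Q.head? = some c)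
    (hd : Q.getLast? = some d) :
    cchi q (P ++ Q.reverse) = chi q P + w q b d + chi q Q + w q a c := by
  have h1 : (P ++ Q.reverse).getLast? = some c := by
    rw [List.getLast?_append, List.getLast?_reverse, hc]; simp
  have h2 : (P ++ Q.reverse).head? = some a := by
    rw [List.head?_append, ha]; simp
  have h3 := chi_join q P Q.reverse b d hb (by rw [List.head?_reverse, hd])
  rw [cchi_eq q h1 h2, h3, chi_reverse, w_symm q c a]

/-- M3a (file Exchange.lean) -/
theorem exchange {G : SimpleGraph V} (q : V → ℕ) {L : List (List V)} (hL : ∀ c ∈ L, CycL G c)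
    (hn : L.flatten.Nodup) {x y x' y' : V}
    (h1 : ∃ c ∈ L, ∃ hx : x ∈ c, c.next x hx = y)
    (h2 : ∃ c ∈ L, ∃ hx : x' ∈ c, c.next x' hx = y')
    (hne : x ≠ x') (hxx : G.Adj x x') (hyy : G.Adj y y') :
    ∃ L' : List (List V), L'.length ≤ L.length ∧ (∀ c ∈ L', CycL G c) ∧
      L'.flatten.Perm L.flatten ∧
      (L'.map (cchi q)).sum + w q x y + w q x' y' =
        (L.map (cchi q)).sum + w q x x' + w q y y' := by
  obtain ⟨c₁, hc₁, hx₁, hy₁⟩ := h1
  obtain ⟨c₂, hc₂, hx₂, hy₂⟩ := h2
  have hC₁ := hL c₁ hc₁
  have hC₂ := hL c₂ hc₂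
  have hm₁ : y ∈ c₁ := by rw [← hy₁]; exact List.next_mem ..
  have hm₂ : y' ∈ c₂ := by rw [← hy₂]; exact List.next_mem ..
  have hp₁ : c₁.prev y hm₁ = x := by
    subst hy₁
    exact List.prev_next _ hC₁.1 _ _
  have hp₂ : c₂.prev y' hm₂ = x' := by
    subst hy₂
    exact List.prev_next _ hC₂.1 _ _
  have hyne : y ≠ y' := hyy.ne
  by_cases hcc : c₁ = c₂
  · -- one cycle
    subst hcc
    obtain ⟨A, B, hr, e1, e2⟩ := split_two hC₁.1 hm₁ hm₂ hyne
    have hCr := hC₁.of_isRotated hr
    have hch := hCr.2.2.1
    rw [List.isChain_append] at hch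
    have a1 : (y :: A).head? = some y := rfl
    have a2 : (y :: A).getLast? = some x' := by
      rw [List.getLast?_eq_getLast_of_ne_nil (by simp), ← e1, hp₂]
    have a3 : (y' :: B).head? = some y' := rfl
    have a4 : (y' :: B).getLast? = some x := by
      rw [List.getLast?_eq_getLast_of_ne_nil (by simp), ← e2, hp₁]
    have hcyc := cyc_of_two hCr.1 hCr.2.1 hch.1 hch.2.1 a1 a2 a3 a4 hxx.symm hyy
    have hchi := cchi_two q a1 a2 a3 a4
    have hperm : ((y :: A) ++ (y' :: B).reverse).Perm c₁ :=
      ((List.reverse_perm _).append_left _).trans hr.perm.symm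
    have hLp : L.Perm (c₁ :: L.erase c₁) := List.perm_cons_erase hc₁
    refine ⟨((y :: A) ++ (y' :: B).reverse) :: L.erase c₁, ?_, ?_, ?_, ?_⟩
    · rw [hLp.length_eq]
      simp
    · intro c hc
      rcases List.mem_cons.1 hc with rfl | hc
      · exact hcyc
      · exact hL c (List.mem_of_mem_erase hc)
    · have h3 : L.flatten.Perm (c₁ :: L.erase c₁).flatten := hLp.flatten
      refine List.Perm.trans ?_ h3.symm
      rw [List.flatten_cons, List.flatten_cons]
      exact hperm.append_right _
    · have h3 : (L.map (cchi q)).sum = cchi q c₁ + ((L.erase c₁).map (cchi q)).sum := by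
        rw [(hLp.map (cchi q)).sum_eq]
        simp
      have h4 : cchi q c₁ = chi q (y :: A) + w q x' y' + chi q (y' :: B) + w q x y := by
        rw [cchi_isRotated q hr]
        have b1 : ((y :: A) ++ (y' :: B)).getLast? = some x := by
          rw [List.getLast?_append, a4]; simp
        have b2 : ((y :: A) ++ (y' :: B)).head? = some y := rfl
        rw [cchi_eq q b1 b2, chi_join q _ _ _ _ a2 a3]
      rw [List.map_cons, List.sum_cons, hchi, h3, h4, w_symm q x' x]
      omega
  · -- two cycles
    have hLp : L.Perm (c₁ :: L.erase c₁) := List.perm_cons_erase hc₁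
    have hc₂' : c₂ ∈ L.erase c₁ := (List.mem_erase_of_ne (fun h => hcc h.symm)).2 hc₂
    have hLp2 : (L.erase c₁).Perm (c₂ :: (L.erase c₁).erase c₂) := List.perm_cons_erase hc₂'
    have hLp3 : L.Perm (c₁ :: c₂ :: (L.erase c₁).erase c₂) := hLp.trans (hLp2.cons c₁)
    have hflat : L.flatten.Perm (c₁ ++ (c₂ ++ ((L.erase c₁).erase c₂).flatten)) := by
      have := hLp3.flatten
      simpa using this
    obtain ⟨A, hrA⟩ := rot_cons hm₁
    obtain ⟨B, hrB⟩ := rot_cons hm₂
    have e1 := prev_of_rot hC₁.1 hrA hm₁
    have e2 := prev_of_rot hC₂.1 hrB hm₂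
    have hA := hC₁.of_isRotated hrA
    have hB := hC₂.of_isRotated hrB
    have a1 : (y :: A).head? = some y := rfl
    have a2 : (y :: A).getLast? = some x := by
      rw [List.getLast?_eq_getLast_of_ne_nil (by simp), ← e1, hp₁]
    have a3 : (y' :: B).head? = some y' := rfl
    have a4 : (y' :: B).getLast? = some x' := by
      rw [List.getLast?_eq_getLast_of_ne_nil (by simp), ← e2, hp₂]
    have hnd : ((y :: A) ++ (y' :: B)).Nodup := by
      have h3 : (c₁ ++ (c₂ ++ ((L.erase c₁).erase c₂).flatten)).Nodup := (hflat.nodup_iff).1 hn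
      have h4 : (c₁ ++ c₂).Nodup := by
        rw [← List.append_assoc] at h3
        exact (List.nodup_append.1 h3).1
      have h5 : (c₁ ++ c₂).Perm ((y :: A) ++ (y' :: B)) := hrA.perm.append hrB.perm
      exact (h5.nodup_iff).1 h4
    have hcyc := cyc_of_two hnd (by
      have := hA.2.1
      simp only [List.length_append, List.length_cons] at this ⊢
      omega) hA.2.2.1 hB.2.2.1 a1 a2 a3 a4 hxx hyy
    have hchi := cchi_two q a1 a2 a3 a4
    have hperm : ((y :: A) ++ (y' :: B).reverse).Perm (c₁ ++ c₂) :=
      hrA.perm.symm.append ((List.reverse_perm _).trans hrB.perm.symm)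
    refine ⟨((y :: A) ++ (y' :: B).reverse) :: (L.erase c₁).erase c₂, ?_, ?_, ?_, ?_⟩
    · rw [hLp3.length_eq]
      simp
    · intro c hc
      rcases List.mem_cons.1 hc with rfl | hc
      · exact hcyc
      · exact hL c (List.mem_of_mem_erase (List.mem_of_mem_erase hc))
    · refine List.Perm.trans ?_ hflat.symm
      rw [List.flatten_cons, ← List.append_assoc c₁]
      exact hperm.append_right _
    · have h3 : (L.map (cchi q)).sum =
          cchi q c₁ + (cchi q c₂ + (((L.erase c₁).erase c₂).map (cchi q)).sum) := by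
        rw [(hLp3.map (cchi q)).sum_eq]
        simp
      have h4 : cchi q c₁ = chi q (y :: A) + w q x y := by
        rw [cchi_isRotated q hrA, cchi_eq q a2 a1]
      have h5 : cchi q c₂ = chi q (y' :: B) + w q x' y' := by
        rw [cchi_isRotated q hrB, cchi_eq q a4 a3]
      rw [List.map_cons, List.sum_cons, hchi, h3, h4, h5]
      omega

end Pool.Agent.TFL
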