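import Pool.Agent.TFL.Exchange

/-!
# [TFL-M3b] few label changes (helper7)

`few_cross_of`: a cover by cycles with the least number of label changes has few of them, by the exchange of two arcs.
-/

set_option autoImplicit false

namespace Pool.Agent.TFL

open List Pool.Agent.TF82

universe u

variable {V : Type u} [DecidableEq V]

theorem chi_zip (q : V → ℕ) : ∀ (t : List V) (a z : V),
    chi q ((a :: t) ++ [z]) = (List.zipWith (w q) (a :: t) (t ++ [z])).sum := by
  intro t
  induction t with
  | nil =>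
    intro a z
    show w q a z + chi q [z] = _
    simp [chi]
  | cons b t ih =>
    intro a z
    have h := ih b z
    rw [List.cons_append, List.cons_append, chi_cons_cons]
    rw [List.cons_append] at h
    rw [h, List.zipWith_cons_cons, List.sum_cons]

/-- the number of the label changes of a cycle, with its successor function -/
theorem cchi_next (q : V → ℕ) {c : List V} (hn : c.Nodup) (g : V → V) (hg : ∀ x (hx : x ∈ c), g x = c.next x hx) :
    cchi q c = (c.map (fun x => w q x (g x))).sum := by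
  rcases c with _ | ⟨a, t⟩
  · rfl
  · have h1 : cchi q (a :: t) = chi q ((a :: t) ++ [a]) := rfl
    rw [h1, chi_zip]
    congr 1
    have h2 : t ++ [a] = (a :: t).rotate 1 := by
      rw [List.rotate_cons_succ, List.rotate_zero]
    rw [h2]
    apply List.ext_getElem
    · simp
    · intro i hi1 hi2
      rw [List.getElem_zipWith, List.getElem_map]
      have h3 : i < (a :: t).length := by simpa using hi2
      rw [hg _ (List.getElem_mem h3), List.next_getElem _ hn i h3, List.getElem_rotate]

/-- (M3b), with the exchange as hypothesis -/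
theorem few_cross_of
    (hex : ∀ {G : SimpleGraph V} (q : V → ℕ) {L : List (List V)}, (∀ c ∈ L, CycL G c) →
      L.flatten.Nodup → ∀ {x y x' y' : V}, (∃ c ∈ L, ∃ hx : x ∈ c, c.next x hx = y) →
      (∃ c ∈ L, ∃ hx : x' ∈ c, c.next x' hx = y') → x ≠ x' → G.Adj x x' → G.Adj y y' →
      ∃ L' : List (List V), L'.length ≤ L.length ∧ (∀ c ∈ L', CycL G c) ∧ L'.flatten.Perm L.flatten ∧
        (L'.map (cchi q)).sum + w q x y + w q x' y' = (L.map (cchi q)).sum + w q x x' + w q y y')
    [Fintype V] {G : SimpleGraph V} (q : V → ℕ) {r b k : ℕ} (hq : ∀ v, q v ≤ r)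
    (hcl : ∀ u v, u ≠ v → q u = q v → q u ≠ 0 → G.Adj u v)
    (hb : ∀ I : Finset V, (∀ v ∈ I, q v = 0) → G.IsIndepSet (I : Set V) → I.card ≤ b)
    (h : Cov G k) : CovX G q k (r * r + 2 * r * b) := by
  classical
  have hexists : ∃ m, CovX G q k m := by
    obtain ⟨L, h1, h2, h3, h4⟩ := h
    exact ⟨_, L, h1, h2, h3, h4, le_rfl⟩
  obtain ⟨m, hm, hmin⟩ : ∃ m, CovX G q k m ∧ ∀ m' < m, ¬ CovX G q k m' :=
    ⟨Nat.find hexists, Nat.find_spec hexists, fun m' hm' => Nat.find_min hexists hm'⟩
  obtain ⟨L, h1, h2, h3, h4, h5⟩ := hm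
  have h6 : (L.map (cchi q)).sum = m := by
    by_contra hne
    exact hmin _ (lt_of_le_of_ne h5 hne) ⟨L, h1, h2, h3, h4, le_rfl⟩
  suffices hle : (L.map (cchi q)).sum ≤ r * r + 2 * r * b from ⟨L, h1, h2, h3, h4, hle⟩
  -- the successor function
  have hC : ∀ x : V, ∃ c ∈ L, x ∈ c := fun x => List.mem_flatten.1 (h4 x)
  choose C hCL hxC using hC
  obtain ⟨g, hg⟩ : ∃ g : V → V, ∀ x, g x = (C x).next x (hxC x) := ⟨_, fun _ => rfl⟩
  obtain ⟨hnd, hdis⟩ := List.nodup_flatten.1 h3
  have huniq : ∀ c ∈ L, ∀ c' ∈ L, ∀ x, x ∈ c → x ∈ c' → c = c' := by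
    intro c hc c' hc' x hx hx'
    by_contra hne
    haveI : Std.Symm (List.Disjoint (α := V)) := ⟨fun _ _ h => h.symm⟩
    exact (hdis.forall hc hc' hne) hx hx'
  have hgc : ∀ c ∈ L, ∀ x (hx : x ∈ c), g x = c.next x hx := by
    intro c hc x hx
    have h7 := huniq _ (hCL x) c hc x (hxC x) hx
    rw [hg]
    subst h7
    rfl
  have hginj : Function.Injective g := by
    intro x x' hxx
    have e1 := hgc _ (hCL x) x (hxC x)
    have e2 := hgc _ (hCL x') x' (hxC x')
    have m1 : g x ∈ C x := by
      rw [e1]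
      exact List.next_mem _ _ _
    have m2 : g x ∈ C x' := by
      rw [hxx, e2]
      exact List.next_mem _ _ _
    have h7 := huniq _ (hCL x) _ (hCL x') _ m1 m2
    have h8 : x ∈ C x' := h7 ▸ hxC x
    have e3 := hgc _ (hCL x') x h8
    have p1 := List.prev_next _ (hnd _ (hCL x')) x h8
    have p2 := List.prev_next _ (hnd _ (hCL x')) x' (hxC x')
    have h9 : (C x').next x h8 = (C x').next x' (hxC x') := by rw [← e3, ← e2, hxx]
    refine p1.symm.trans (Eq.trans ?_ p2)
    simp only [h9]
  have hsum : (L.map (cchi q)).sum = (Finset.univ.filter (fun x => q x ≠ q (g x))).card := by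
    have a1 : (L.map (cchi q)).sum = (L.map (fun c => (c.map (fun x => w q x (g x))).sum)).sum := by
      congr 1
      apply List.map_congr_left
      intro c hc
      exact cchi_next q (hnd c hc) g (hgc c hc)
    have a2 : (L.map (fun c => (c.map (fun x => w q x (g x))).sum)).sum =
        (L.flatten.map (fun x => w q x (g x))).sum := by
      rw [List.map_flatten, List.sum_flatten, List.map_map]
      rfl
    have a3 : (L.flatten.map (fun x => w q x (g x))).sum = ∑ x, w q x (g x) := by
      rw [← List.sum_toFinset _ h3]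
      apply Finset.sum_congr _ (fun _ _ => rfl)
      ext x
      simp only [List.mem_toFinset, Finset.mem_univ, iff_true]
      exact h4 x
    rw [a1, a2, a3, Finset.card_filter]
    apply Finset.sum_congr rfl
    intro x _
    unfold w
    by_cases e : q x = q (g x)
    · rw [if_pos e, if_neg (fun h => h e)]
    · rw [if_neg e, if_pos e]
  -- no exchange is possible
  have hno : ∀ x x', x ≠ x' → q x = q x' → q (g x) = q (g x') → q x ≠ q (g x) → G.Adj x x' →
      ¬ G.Adj (g x) (g x') := by
    intro x x' hne e1 e2 e3 hadj hadj'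
    obtain ⟨L', b1, b2, b3, b4⟩ := hex q h2 h3 ⟨C x, hCL x, hxC x, (hg x).symm⟩
      ⟨C x', hCL x', hxC x', (hg x').symm⟩ hne hadj hadj'
    have w1 : w q x (g x) = 1 := if_neg e3
    have w2 : w q x' (g x') = 1 := if_neg (by rw [← e1, ← e2]; exact e3)
    have w3 : w q x x' = 0 := if_pos e1
    have w4 : w q (g x) (g x') = 0 := if_pos e2
    rw [w1, w2, w3, w4, h6] at b4
    refine hmin (L'.map (cchi q)).sum (by omega) ⟨L', b1.trans h1, b2, b3.nodup_iff.2 h3, fun z => b3.mem_iff.2 (h4 z), le_rfl⟩
  rw [hsum]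
  have hBm : ∀ x ∈ Finset.univ.filter (fun x => q x ≠ q (g x)), q x ≠ q (g x) :=
    fun x hx => (Finset.mem_filter.1 hx).2
  generalize Finset.univ.filter (fun x => q x ≠ q (g x)) = B at hBm ⊢
  -- both labels positive
  have c1 : (B.filter (fun x => q x ≠ 0 ∧ q (g x) ≠ 0)).card ≤ r * r := by
    have e1 : ((Finset.Icc 1 r) ×ˢ (Finset.Icc 1 r)).card = r * r := by
      rw [Finset.card_product, Nat.card_Icc]
      simp
    rw [← e1]
    apply Finset.card_le_card_of_injOn (fun x => (q x, q (g x)))
    · intro x hx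
      rw [Finset.mem_coe, Finset.mem_filter] at hx
      simp only [Finset.coe_product, Set.mem_prod, Finset.mem_coe, Finset.mem_Icc]
      exact ⟨⟨Nat.pos_of_ne_zero hx.2.1, hq _⟩, Nat.pos_of_ne_zero hx.2.2, hq _⟩
    · intro x hx x' hx' he
      rw [Finset.mem_coe, Finset.mem_filter] at hx hx'
      by_contra hne
      obtain ⟨f1, f2⟩ := Prod.mk.inj he
      exact hno x x' hne f1 f2 (hBm x hx.1) (hcl x x' hne f1 hx.2.1)
        (hcl _ _ (fun e => hne (hginj e)) f2 hx.2.2)
  have c2 : (B.filter (fun x => q (g x) = 0)).card ≤ b * r := by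
    have e1 : (Finset.Icc 1 r).card = r := by rw [Nat.card_Icc]; simp
    rw [← e1]
    apply Finset.card_le_mul_card_image_of_maps_to (f := q)
    · intro x hx
      rw [Finset.mem_filter] at hx
      rw [Finset.mem_Icc]
      refine ⟨Nat.pos_of_ne_zero fun h0 => hBm x hx.1 (h0.trans hx.2.symm), hq _⟩
    · intro i hi
      rw [Finset.mem_Icc] at hi
      have f1 : ((B.filter (fun x => q (g x) = 0)).filter (fun x => q x = i)).card =
          (((B.filter (fun x => q (g x) = 0)).filter (fun x => q x = i)).image g).card :=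
        (Finset.card_image_of_injective _ hginj).symm
      rw [f1]
      apply hb
      · intro v hv
        obtain ⟨x, hx, rfl⟩ := Finset.mem_image.1 hv
        exact (Finset.mem_filter.1 (Finset.mem_filter.1 hx).1).2
      · intro u hu v hv huv hadj
        obtain ⟨x, hx, rfl⟩ := Finset.mem_image.1 (Finset.mem_coe.1 hu)
        obtain ⟨x', hx', rfl⟩ := Finset.mem_image.1 (Finset.mem_coe.1 hv)
        rw [Finset.mem_filter, Finset.mem_filter] at hx hx'
        have hne : x ≠ x' := fun e => huv (by rw [e])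
        refine hno x x' hne (hx.2.trans hx'.2.symm) (hx.1.2.trans hx'.1.2.symm) (hBm x hx.1.1) (hcl x x' hne (hx.2.trans hx'.2.symm) ?_) hadj
        rw [hx.2]
        omega
  have c3 : (B.filter (fun x => q x = 0)).card ≤ b * r := by
    have e1 : (Finset.Icc 1 r).card = r := by rw [Nat.card_Icc]; simp
    rw [← e1]
    apply Finset.card_le_mul_card_image_of_maps_to (f := fun x => q (g x))
    · intro x hx
      rw [Finset.mem_filter] at hx
      rw [Finset.mem_Icc]
      refine ⟨Nat.pos_of_ne_zero fun h0 => hBm x hx.1 (hx.2.trans h0.symm), hq _⟩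
    · intro i hi
      rw [Finset.mem_Icc] at hi
      apply hb
      · intro v hv
        exact (Finset.mem_filter.1 (Finset.mem_filter.1 hv).1).2
      · intro x hx x' hx' hne hadj
        rw [Finset.mem_coe, Finset.mem_filter, Finset.mem_filter] at hx hx'
        refine hno x x' hne (hx.1.2.trans hx'.1.2.symm) (hx.2.trans hx'.2.symm) (hBm x hx.1.1) hadj
          (hcl _ _ (fun e => hne (hginj e)) (hx.2.trans hx'.2.symm) ?_)
        have := hx.2
        omega
  have c4 : B ⊆ (B.filter (fun x => q x ≠ 0 ∧ q (g x) ≠ 0)) ∪ ((B.filter (fun x => q (g x) = 0)) ∪ (B.filter (fun x => q x = 0))) := by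
    intro x hx
    rw [Finset.mem_union, Finset.mem_union, Finset.mem_filter, Finset.mem_filter, Finset.mem_filter]
    by_cases d1 : q x = 0
    · exact Or.inr (Or.inr ⟨hx, d1⟩)
    · by_cases d2 : q (g x) = 0
      · exact Or.inr (Or.inl ⟨hx, d2⟩)
      · exact Or.inl ⟨hx, d1, d2⟩
  have c5 := (Finset.card_le_card c4).trans ((Finset.card_union_le _ _).trans (Nat.add_le_add_left (Finset.card_union_le _ _) _))
  have c6 : 2 * r * b = b * r + b * r := by ring
  omega

/-- M3b -/
theorem few_cross [Fintype V] {G : SimpleGraph V} (q : V → ℕ) {r b k : ℕ} (hq : ∀ v, q v ≤ r)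
    (hcl : ∀ u v, u ≠ v → q u = q v → q u ≠ 0 → G.Adj u v)
    (hb : ∀ I : Finset V, (∀ v ∈ I, q v = 0) → G.IsIndepSet (I : Set V) → I.card ≤ b)
    (h : Cov G k) : CovX G q k (r * r + 2 * r * b) :=
  few_cross_of (fun q _ hL hn _ _ _ _ h1 h2 hne hxx hyy => exchange q hL hn h1 h2 hne hxx hyy) q hq hcl hb h

end Pool.Agent.TFL
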