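import Pool.Agent.TFL.Defs

/-! Module M1: the Chvatal-Erdos theorem on Hamilton-connected graphs, in lists. -/

namespace Pool.Agent.TFL

open List Pool.Agent.TF82

universe u

set_option linter.unusedSectionVars false
set_option linter.unusedVariables false

variable {V : Type u} [DecidableEq V]

/-- `v` is the successor of `u` in `p` -/
def Suc (p : List V) (u v : V) : Prop := ∃ A B, p = A ++ u :: v :: B

theorem suc_split {p : List V} {u v w w' : V} (h1 : Suc p u v) (h2 : Suc p w w') (hne : u ≠ w) :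
    (∃ A M C, p = (A ++ [u]) ++ (M ++ w' :: C) ∧ M.head? = some v ∧ M.getLast? = some w) ∨
    (∃ A M C, p = (A ++ [w]) ++ (M ++ v :: C) ∧ M.head? = some w' ∧ M.getLast? = some u) := by
  obtain ⟨A, B, hA⟩ := h1
  obtain ⟨A', B', hA'⟩ := h2
  have h := hA.symm.trans hA'
  rcases List.append_eq_append_iff.1 h with ⟨s, hs, hs'⟩ | ⟨s, hs, hs'⟩
  · left
    rcases s with _ | ⟨s0, s⟩
    · simp at hs'
      exact absurd hs'.1 hne
    · rw [List.cons_append, List.cons.injEq] at hs'
      obtain ⟨rfl, hs'⟩ := hs'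
      refine ⟨A, s ++ [w], B', ?_, ?_, by simp⟩
      · rw [hA, hs']; simp
      · rcases s with _ | ⟨s1, s⟩
        · simp at hs'
          simp [hs'.1]
        · simp at hs'
          simp [hs'.1]
  · right
    rcases s with _ | ⟨s0, s⟩
    · simp at hs'
      exact absurd hs'.1.symm hne
    · rw [List.cons_append, List.cons.injEq] at hs'
      obtain ⟨rfl, hs'⟩ := hs'
      refine ⟨A', s ++ [u], B, ?_, ?_, by simp⟩
      · rw [hA', hs']; simp
      · rcases s with _ | ⟨s1, s⟩
        · simp at hs'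
          simp [hs'.1]
        · simp at hs'
          simp [hs'.1]

theorem suc_inj {p : List V} (hn : p.Nodup) {u v w : V} (h1 : Suc p u v) (h2 : Suc p w v) :
    u = w := by
  by_contra hne
  rcases suc_split h1 h2 hne with ⟨A, M, C, hp, hM, _⟩ | ⟨A, M, C, hp, hM, _⟩
  · rw [hp] at hn
    have h3 := (List.nodup_append.1 (List.nodup_append.1 hn).2.1).2.2
    exact h3 v (List.mem_of_mem_head? (by rw [hM]; rfl)) v (by simp) rfl
  · rw [hp] at hn
    have h3 := (List.nodup_append.1 (List.nodup_append.1 hn).2.1).2.2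
    exact h3 v (List.mem_of_mem_head? (by rw [hM]; rfl)) v (by simp) rfl

theorem suc_exists {p : List V} {u y : V} (hu : u ∈ p) (hy : p.getLast? = some y) (hne : u ≠ y) :
    ∃ v, Suc p u v := by
  obtain ⟨A, B, rfl⟩ := List.append_of_mem hu
  rcases B with _ | ⟨v, B⟩
  · simp at hy
    exact absurd hy hne
  · exact ⟨v, A, B, rfl⟩

theorem Suc.mem_right {p : List V} {u v : V} (h : Suc p u v) : v ∈ p := by
  obtain ⟨A, B, rfl⟩ := h
  simp

theorem ch_app {G : SimpleGraph V} {l1 l2 : List V} {s t : V} (h1 : l1.IsChain G.Adj)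
    (h2 : l2.IsChain G.Adj) (hl : l1.getLast? = some s) (hh : l2.head? = some t)
    (h : G.Adj s t) : (l1 ++ l2).IsChain G.Adj := by
  rw [List.isChain_append]
  refine ⟨h1, h2, ?_⟩
  intro x hx y hy
  rw [hl] at hx
  rw [hh] at hy
  simp only [Option.mem_def, Option.some.injEq] at hx hy
  rw [← hx, ← hy]
  exact h

theorem hd_app {l1 l2 : List V} {s : V} (h : l1.head? = some s) : (l1 ++ l2).head? = some s := by
  rw [List.head?_append, h]; simp

theorem lt_app {l1 l2 : List V} {s : V} (h : l2.getLast? = some s) :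
    (l1 ++ l2).getLast? = some s := by
  rw [List.getLast?_append, h]; simp

/-- paths from `x` to `y` inside `Q` -/
def Pxy (G : SimpleGraph V) (Q : Finset V) (x y : V) (p : List V) : Prop :=
  p.Nodup ∧ p.IsChain G.Adj ∧ p.head? = some x ∧ p.getLast? = some y ∧ ∀ z ∈ p, z ∈ Q

theorem lastOf {l1 l2 : List V} {y t : V} (h : (l1 ++ l2).getLast? = some y)
    (h2 : l2.head? = some t) : l2.getLast? = some y := by
  rw [List.getLast?_append] at h
  rcases l2 with _ | ⟨b, l2⟩
  · simp at h2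
  · have h3 : (b :: l2).getLast? = some ((b :: l2).getLast (by simp)) :=
      List.getLast?_eq_getLast_of_ne_nil (by simp)
    rw [h3] at h ⊢
    simpa using h

theorem headOf {l1 l2 : List V} {x s : V} (h : (l1 ++ l2).head? = some x)
    (h1 : l1.getLast? = some s) : l1.head? = some x := by
  rcases l1 with _ | ⟨b, l1⟩
  · simp at h1
  · simpa using h

theorem longer1 {G : SimpleGraph V} {Q : Finset V} {x y : V} {p P1 P2 q : List V}
    (hp : Pxy G Q x y p) (hP : p = P1 ++ P2) {u v a b : V} (hu : P1.getLast? = some u)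
    (hv : P2.head? = some v) (hq : q.Nodup) (hqc : q.IsChain G.Adj) (ha : q.head? = some a)
    (hb : q.getLast? = some b) (hqQ : ∀ z ∈ q, z ∈ Q ∧ z ∉ p) (h1 : G.Adj u a)
    (h2 : G.Adj b v) : ∃ p', Pxy G Q x y p' ∧ p.length < p'.length := by
  obtain ⟨hn, hc, hx, hy, hQ⟩ := hp
  have hperm : (P1 ++ (q ++ P2)).Perm (q ++ p) := by
    rw [hP, List.perm_iff_count]
    intro z
    simp only [List.count_append]
    omega
  have hc' := hc
  rw [hP, List.isChain_append] at hc'
  refine ⟨P1 ++ (q ++ P2), ⟨?_, ?_, ?_, ?_, ?_⟩, ?_⟩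
  · rw [hperm.nodup_iff, List.nodup_append]
    refine ⟨hq, hn, ?_⟩
    rintro z hz w hw rfl
    exact (hqQ z hz).2 hw
  · exact ch_app hc'.1 (ch_app hqc hc'.2.1 hb hv h2) hu (hd_app ha) h1
  · rw [hP] at hx
    exact hd_app (headOf hx hu)
  · rw [hP] at hy
    exact lt_app (lt_app (lastOf hy hv))
  · intro z hz
    rcases List.mem_append.1 (hperm.mem_iff.1 hz) with h | h
    · exact (hqQ z h).1
    · exact hQ z h
  · rw [hperm.length_eq, List.length_append]
    rcases q with _ | ⟨q0, q⟩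
    · simp at ha
    · simp

theorem longer2 {G : SimpleGraph V} {Q : Finset V} {x y : V} {p P1 M P2 q : List V}
    (hp : Pxy G Q x y p) (hP : p = P1 ++ (M ++ P2)) {u v w w' a b : V}
    (hu : P1.getLast? = some u)
    (hv : M.head? = some v) (hw : M.getLast? = some w) (hw' : P2.head? = some w')
    (hq : q.Nodup) (hqc : q.IsChain G.Adj) (ha : q.head? = some a)
    (hb : q.getLast? = some b) (hqQ : ∀ z ∈ q, z ∈ Q ∧ z ∉ p) (h1 : G.Adj u a)
    (h2 : G.Adj b w) (h3 : G.Adj v w') : ∃ p', Pxy G Q x y p' ∧ p.length < p'.length := by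
  obtain ⟨hn, hc, hx, hy, hQ⟩ := hp
  have hperm : (P1 ++ (q ++ (M.reverse ++ P2))).Perm (q ++ p) := by
    rw [hP, List.perm_iff_count]
    intro z
    simp only [List.count_append, List.count_reverse]
    omega
  have hc' := hc
  rw [hP, List.isChain_append, List.isChain_append] at hc'
  refine ⟨P1 ++ (q ++ (M.reverse ++ P2)), ⟨?_, ?_, ?_, ?_, ?_⟩, ?_⟩
  · rw [hperm.nodup_iff, List.nodup_append]
    refine ⟨hq, hn, ?_⟩
    rintro z hz w hw rfl
    exact (hqQ z hz).2 hw
  · refine ch_app hc'.1 (ch_app hqc (ch_app (s := v) (t := w') ?_ hc'.2.1.2.1 ?_ hw' h3) hb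
      (t := w) (hd_app ?_) h2) hu (hd_app ha) h1
    · rw [List.isChain_reverse]
      exact hc'.2.1.1.imp (fun _ _ h => h.symm)
    · rw [List.getLast?_reverse]; exact hv
    · rw [List.head?_reverse]; exact hw
  · rw [hP] at hx
    exact hd_app (headOf hx hu)
  · rw [hP] at hy
    exact lt_app (lt_app (lt_app (lastOf (lastOf hy (hd_app hv)) hw')))
  · intro z hz
    rcases List.mem_append.1 (hperm.mem_iff.1 hz) with h | h
    · exact (hqQ z h).1
    · exact hQ z h
  · rw [hperm.length_eq, List.length_append]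
    rcases q with _ | ⟨q0, q⟩
    · simp at ha
    · simp

theorem reach_mem {G : SimpleGraph V} {U : Finset V} {a b : V} (h : Reach G U a b) (ha : a ∈ U) :
    b ∈ U := by
  induction h with
  | refl => exact ha
  | tail _ hbc _ => exact hbc.2.1

/-- M1 (file HamConn.lean) -/
theorem ham_conn {G : SimpleGraph V} {Q : Finset V} {a : ℕ} (ha : 1 ≤ a)
    (hα : ∀ I ⊆ Q, G.IsIndepSet (I : Set V) → I.card ≤ a)
    (hK : KC G Q (a + 1)) {x y : V} (hx : x ∈ Q) (hy : y ∈ Q) (hxy : x ≠ y) :
    ∃ p : List V, p.Nodup ∧ p.IsChain G.Adj ∧ p.head? = some x ∧ p.getLast? = some y ∧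
      ∀ z, z ∈ p ↔ z ∈ Q := by
  classical
  -- a longest path
  have h0 : ∃ p, Pxy G Q x y p := by
    have h1 := hK ∅ (Finset.empty_subset _) (by simp)
    rw [Finset.sdiff_empty] at h1
    obtain ⟨q, h2, h3, h4, h5, h6⟩ := (h1 x hx y hy).path hx
    exact ⟨q, h2, h3, h4, h5, h6⟩
  obtain ⟨m, ⟨p, hp, hpm⟩, hmax⟩ := exists_max_nat
    (fun m => ∃ p : List V, Pxy G Q x y p ∧ p.length = m) Q.card
    (by obtain ⟨p, hp⟩ := h0; exact ⟨_, p, hp, rfl⟩)
    (by
      rintro m ⟨l, h1, rfl⟩
      exact nodup_len_le h1.1 h1.2.2.2.2)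
  have hlong : ∀ p', Pxy G Q x y p' → ¬ p.length < p'.length := by
    intro p' hp' hlt
    have := hmax _ ⟨p', hp', rfl⟩
    omega
  refine ⟨p, hp.1, hp.2.1, hp.2.2.1, hp.2.2.2.1, fun z => ⟨hp.2.2.2.2 z, ?_⟩⟩
  intro hzQ
  by_contra hzp
  set U : Finset V := Q \ p.toFinset with hU
  have hmemU : ∀ v, v ∈ U ↔ v ∈ Q ∧ v ∉ p := by
    intro v
    rw [hU, Finset.mem_sdiff, List.mem_toFinset]
  have hzU : z ∈ U := (hmemU z).2 ⟨hzQ, hzp⟩
  set N : Finset V := Q.filter (fun u => u ∈ p ∧ ∃ h, Reach G U z h ∧ G.Adj h u) with hN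
  have hmemN : ∀ u, u ∈ N ↔ u ∈ p ∧ ∃ h, Reach G U z h ∧ G.Adj h u := by
    intro u
    rw [hN, Finset.mem_filter]
    exact ⟨fun h => h.2, fun h => ⟨hp.2.2.2.2 u h.1, h⟩⟩
  have hpath : ∀ h h', Reach G U z h → Reach G U z h' → ∃ q : List V, q.Nodup ∧
      q.IsChain G.Adj ∧ q.head? = some h ∧ q.getLast? = some h' ∧ ∀ w ∈ q, w ∈ Q ∧ w ∉ p := by
    intro h h' hh hh'
    obtain ⟨q, h1, h2, h3, h4, h5⟩ := Reach.path (hh.symm.trans hh') (reach_mem hh hzU)
    exact ⟨q, h1, h2, h3, h4, fun w hw => (hmemU w).1 (h5 w hw)⟩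
  -- no vertex of the component is joined to a successor
  have hsucH : ∀ u v, u ∈ N → Suc p u v → ∀ h', Reach G U z h' → ¬ G.Adj h' v := by
    intro u v hu hs h' hh' hadj
    obtain ⟨_, h, hh, hhu⟩ := (hmemN u).1 hu
    obtain ⟨q, h1, h2, h3, h4, h5⟩ := hpath h h' hh hh'
    obtain ⟨A, B, hAB⟩ := hs
    obtain ⟨p', hp', hlt⟩ := longer1 hp (P1 := A ++ [u]) (P2 := v :: B) (by rw [hAB]; simp)
      (u := u) (v := v) (by simp) (by simp) h1 h2 h3 h4 h5 hhu.symm hadj
    exact hlong p' hp' hlt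
  have hsucS : ∀ u v w w', u ∈ N → w ∈ N → Suc p u v → Suc p w w' → v ≠ w' → ¬ G.Adj v w' := by
    intro u v w w' hu hw hs hs' hne hadj
    have huw : u ≠ w := by
      rintro rfl
      obtain ⟨A, B, hAB⟩ := hs
      obtain ⟨A', B', hAB'⟩ := hs'
      have hnd := hp.1
      have hu1 : u ∉ A := by
        intro h
        rw [hAB] at hnd
        exact (List.nodup_append.1 hnd).2.2 u h u (by simp) rfl
      have hu2 : u ∉ A' := by
        intro h
        rw [hAB'] at hnd
        exact (List.nodup_append.1 hnd).2.2 u h u (by simp) rfl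
      have he := hAB.symm.trans hAB'
      have : A = A' := by
        rcases List.append_eq_append_iff.1 he with ⟨s, hs, hs'⟩ | ⟨s, hs, hs'⟩
        · rcases s with _ | ⟨s0, s⟩
          · simpa using hs.symm
          · exfalso
            rw [List.cons_append, List.cons.injEq] at hs'
            apply hu2
            rw [hs, hs'.1]; simp
        · rcases s with _ | ⟨s0, s⟩
          · simpa using hs
          · exfalso
            rw [List.cons_append, List.cons.injEq] at hs'
            apply hu1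
            rw [hs, hs'.1]; simp
      rw [this] at he
      have he' := List.append_cancel_left he
      simp at he'
      exact hne he'.1
    have key : ∀ u v w w' : V, u ∈ N → w ∈ N → G.Adj v w' →
        (∃ A M C, p = (A ++ [u]) ++ (M ++ w' :: C) ∧ M.head? = some v ∧
          M.getLast? = some w) → False := by
      rintro u v w w' hu hw hadj ⟨A, M, C, hP, hM, hM'⟩
      obtain ⟨_, h, hh, hhu⟩ := (hmemN u).1 hu
      obtain ⟨_, h', hh', hhw⟩ := (hmemN w).1 hw
      obtain ⟨q, h1, h2, h3, h4, h5⟩ := hpath h h' hh hh'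
      obtain ⟨p', hp', hlt⟩ := longer2 hp hP (u := u) (v := v) (w := w) (w' := w') (by simp)
        hM hM' (by simp) h1 h2 h3 h4 h5 hhu.symm hhw hadj
      exact hlong p' hp' hlt
    rcases suc_split hs hs' huw with h | h
    · exact key u v w w' hu hw hadj h
    · exact key w w' u v hw hu hadj.symm h
  set S : Finset V := Q.filter (fun v => ∃ u ∈ N, Suc p u v) with hS
  have hmemS : ∀ v, v ∈ S ↔ ∃ u ∈ N, Suc p u v := by
    intro v
    rw [hS, Finset.mem_filter]
    refine ⟨fun h => h.2, fun h => ⟨?_, h⟩⟩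
    obtain ⟨u, _, hs⟩ := h
    exact hp.2.2.2.2 v hs.mem_right
  have hzS : z ∉ S := by
    intro h
    obtain ⟨u, _, hs⟩ := (hmemS z).1 h
    exact hzp hs.mem_right
  have hcard : S.card + 1 ≤ a := by
    rw [← Finset.card_insert_of_notMem hzS]
    apply hα
    · intro v hv
      rcases Finset.mem_insert.1 hv with rfl | hv
      · exact hzQ
      · exact (Finset.mem_filter.1 hv).1
    · intro v hv w hw hvw hadj
      rcases Finset.mem_insert.1 (Finset.mem_coe.1 hv) with rfl | hv
      · rcases Finset.mem_insert.1 (Finset.mem_coe.1 hw) with rfl | hw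
        · exact hvw rfl
        · obtain ⟨u, hu, hs⟩ := (hmemS w).1 hw
          exact hsucH u w hu hs v Relation.ReflTransGen.refl hadj
      · rcases Finset.mem_insert.1 (Finset.mem_coe.1 hw) with rfl | hw
        · obtain ⟨u, hu, hs⟩ := (hmemS v).1 hv
          exact hsucH u v hu hs w Relation.ReflTransGen.refl hadj.symm
        · obtain ⟨u, hu, hs⟩ := (hmemS v).1 hv
          obtain ⟨u', hu', hs'⟩ := (hmemS w).1 hw
          exact hsucS u v u' w hu hu' hs hs' hvw hadj
  have hcardN : N.card ≤ S.card + 1 := by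
    have h1 : (N.erase y).card ≤ S.card := by
      have h2 : ∀ u ∈ N.erase y, ∃ v, Suc p u v := by
        intro u hu
        rw [Finset.mem_erase] at hu
        exact suc_exists ((hmemN u).1 hu.2).1 hp.2.2.2.1 hu.1
      choose! f hf using h2
      apply Finset.card_le_card_of_injOn f
      · intro u hu
        exact Finset.mem_coe.2 ((hmemS _).2 ⟨u, (Finset.mem_erase.1 (Finset.mem_coe.1 hu)).2,
          hf u (Finset.mem_coe.1 hu)⟩)
      · intro u hu w hw huw
        have h3 := hf u (Finset.mem_coe.1 hu)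
        have h4 := hf w (Finset.mem_coe.1 hw)
        rw [huw] at h3
        exact suc_inj hp.1 h3 h4
    have := Finset.pred_card_le_card_erase (s := N) (a := y)
    omega
  have hconn := hK N (fun u hu => (Finset.mem_filter.1 hu).1) (by omega)
  -- a vertex of `p` outside of `N`
  have hxp : x ∈ p := List.mem_of_mem_head? (by rw [hp.2.2.1]; rfl)
  have hex : ∃ v ∈ p, v ∉ N := by
    by_cases hSe : S = ∅
    · refine ⟨x, hxp, ?_⟩
      intro hxN
      obtain ⟨v, hv⟩ := suc_exists hxp hp.2.2.2.1 hxy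
      have : v ∈ S := (hmemS v).2 ⟨x, hxN, hv⟩
      rw [hSe] at this
      simp at this
    · obtain ⟨v, hv⟩ := Finset.nonempty_iff_ne_empty.2 hSe
      obtain ⟨u, hu, hs⟩ := (hmemS v).1 hv
      refine ⟨v, hs.mem_right, ?_⟩
      intro hvN
      obtain ⟨_, h, hh, hhv⟩ := (hmemN v).1 hvN
      exact hsucH u v hu hs h hh hhv
  obtain ⟨v, hvp, hvN⟩ := hex
  have hzN : z ∉ N := fun h => hzp ((hmemN z).1 h).1
  have hr := hconn z (Finset.mem_sdiff.2 ⟨hzQ, hzN⟩) v
    (Finset.mem_sdiff.2 ⟨hp.2.2.2.2 v hvp, hvN⟩)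
  have hH : ∀ w, Reach G (Q \ N) z w → Reach G U z w := by
    intro w hw
    induction hw with
    | refl => exact Relation.ReflTransGen.refl
    | @tail b c _ hbc ih =>
      refine Relation.ReflTransGen.tail ih ⟨reach_mem ih hzU, ?_, hbc.2.2⟩
      rw [hmemU]
      refine ⟨(Finset.mem_sdiff.1 hbc.2.1).1, ?_⟩
      intro hcp
      exact (Finset.mem_sdiff.1 hbc.2.1).2 ((hmemN c).2 ⟨hcp, b, ih, hbc.2.2⟩)
  exact ((hmemU v).1 (reach_mem (hH v hr) hzU)).2 hvp

end Pool.Agent.TFL
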