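import Pool.Agent.TFL.Defs

/-! Labels: highly connected pieces and a low rest. -/

namespace Pool.Agent.TFL

open List Pool.Agent.TF82

universe u

set_option linter.unusedSectionVars false
set_option linter.unusedVariables false

variable {V : Type u} [DecidableEq V]

/-- a partition into the removed class `0` and pairwise nonadjacent nonempty classes `1, ..., s` -/
def Sep [Fintype V] (G : SimpleGraph V) (K s : ℕ) (c : V → ℕ) : Prop :=
  (∀ v, c v ≤ s) ∧ (∀ i, 1 ≤ i → i ≤ s → ∃ v, c v = i) ∧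
  (∀ u v, G.Adj u v → c u ≠ 0 → c v ≠ 0 → c u = c v) ∧
  (Finset.univ.filter (fun x => c x = 0)).card ≤ (s - 1) * K

theorem sep_split [Fintype V] {G : SimpleGraph V} {K s : ℕ} {c : V → ℕ} (h : Sep G K s c) {i : ℕ}
    (hi : 1 ≤ i) (his : i ≤ s) (hn : ¬ KC G (Finset.univ.filter (fun x => c x = i)) K) :
    ∃ c', Sep G K (s + 1) c' := by
  classical
  obtain ⟨h1, h2, h3, h4⟩ := h
  unfold KC Conn at hn
  push Not at hn
  obtain ⟨X, hX, hXK, u, hu, v, hv, huv⟩ := hn
  rw [Finset.mem_sdiff, Finset.mem_filter] at hu hv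
  set U : Finset V := Finset.univ.filter (fun x => c x = i) \ X with hU
  have hXc : ∀ w ∈ X, c w = i := fun w hw => (Finset.mem_filter.1 (hX hw)).2
  refine ⟨fun w => if w ∈ X then 0 else if c w = i ∧ ¬ Reach G U u w then s + 1 else c w,
    ?_, ?_, ?_, ?_⟩
  · intro w
    have := h1 w
    dsimp only
    split_ifs <;> omega
  · intro i' hi1 hi2
    by_cases e1 : i' = s + 1
    · refine ⟨v, ?_⟩
      dsimp only
      rw [if_neg hv.2, if_pos ⟨hv.1.2, huv⟩, e1]
    by_cases e2 : i' = i
    · refine ⟨u, ?_⟩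
      dsimp only
      rw [if_neg hu.2, if_neg, hu.1.2, e2]
      rintro ⟨_, hr⟩
      exact hr Relation.ReflTransGen.refl
    · obtain ⟨w, hw⟩ := h2 i' hi1 (by omega)
      refine ⟨w, ?_⟩
      dsimp only
      rw [if_neg (fun hwX => e2 (by rw [← hw, hXc w hwX])), if_neg, hw]
      rintro ⟨hr, _⟩
      exact e2 (by rw [← hw, hr])
  · intro p p' hpp hp hp'
    dsimp only at hp hp' ⊢
    by_cases g1 : p ∈ X
    · rw [if_pos g1] at hp
      exact absurd rfl hp
    by_cases g2 : p' ∈ X
    · rw [if_pos g2] at hp'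
      exact absurd rfl hp'
    rw [if_neg g1] at hp ⊢
    rw [if_neg g2] at hp' ⊢
    have k1 : c p ≠ 0 := by
      intro h0
      rw [if_neg (by rw [h0]; rintro ⟨hr, _⟩; omega)] at hp
      exact hp h0
    have k2 : c p' ≠ 0 := by
      intro h0
      rw [if_neg (by rw [h0]; rintro ⟨hr, _⟩; omega)] at hp'
      exact hp' h0
    have k3 := h3 p p' hpp k1 k2
    by_cases g3 : c p = i
    · have hpU : p ∈ U := Finset.mem_sdiff.2 ⟨Finset.mem_filter.2 ⟨Finset.mem_univ _, g3⟩, g1⟩
      have hpU' : p' ∈ U :=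
        Finset.mem_sdiff.2 ⟨Finset.mem_filter.2 ⟨Finset.mem_univ _, k3 ▸ g3⟩, g2⟩
      have hiff : Reach G U u p ↔ Reach G U u p' := by
        constructor
        · intro hr
          exact Relation.ReflTransGen.tail hr ⟨hpU, hpU', hpp⟩
        · intro hr
          exact Relation.ReflTransGen.tail hr ⟨hpU', hpU, hpp.symm⟩
      rw [← k3]
      by_cases g4 : Reach G U u p
      · rw [if_neg (fun hh => hh.2 g4), if_neg (fun hh => hh.2 (hiff.1 g4))]
      · rw [if_pos ⟨g3, g4⟩, if_pos ⟨g3, fun hh => g4 (hiff.2 hh)⟩]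
    · rw [if_neg (fun hh => g3 hh.1), if_neg (fun hh => g3 (k3.trans hh.1)), k3]
  · have hsub : Finset.univ.filter (fun x => (if x ∈ X then 0 else
        if c x = i ∧ ¬ Reach G U u x then s + 1 else c x) = 0) ⊆
        X ∪ Finset.univ.filter (fun x => c x = 0) := by
      intro w hw
      rw [Finset.mem_filter] at hw
      rw [Finset.mem_union, Finset.mem_filter]
      by_cases g1 : w ∈ X
      · exact Or.inl g1
      · right
        have := hw.2
        rw [if_neg g1] at this
        by_cases g2 : c w = i ∧ ¬ Reach G U u w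
        · rw [if_pos g2] at this
          omega
        · rw [if_neg g2] at this
          exact ⟨Finset.mem_univ _, this⟩
    have hc := (Finset.card_le_card hsub).trans (Finset.card_union_le _ _)
    have e : (s + 1 - 1) * K = (s - 1) * K + K := by
      obtain ⟨t, rfl⟩ := Nat.exists_eq_add_of_le (hi.trans his)
      have e1 : 1 + t + 1 - 1 = t + 1 := by omega
      have e2 : 1 + t - 1 = t := by omega
      rw [e1, e2]
      ring
    show (Finset.univ.filter (fun x => (if x ∈ X then 0 else
        if c x = i ∧ ¬ Reach G U u x then s + 1 else c x) = 0)).card ≤ _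
    omega

/-- degree of a vertex of a class -/
theorem deg_class [Fintype V] {G : SimpleGraph V} [DecidableRel G.Adj] {K s : ℕ} {c : V → ℕ}
    (h : Sep G K s c) {v : V} (hv : c v ≠ 0) :
    dU G Finset.univ v ≤ (Finset.univ.filter (fun x => c x = c v)).card + (s - 1) * K := by
  unfold dU
  have hsub : Finset.univ.filter (fun w => G.Adj v w) ⊆
      Finset.univ.filter (fun x => c x = c v) ∪ Finset.univ.filter (fun x => c x = 0) := by
    intro w hw
    rw [Finset.mem_filter] at hw
    rw [Finset.mem_union, Finset.mem_filter, Finset.mem_filter]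
    by_cases g : c w = 0
    · exact Or.inr ⟨Finset.mem_univ _, g⟩
    · exact Or.inl ⟨Finset.mem_univ _, (h.2.2.1 v w hw.2 hv g).symm⟩
  have := (Finset.card_le_card hsub).trans (Finset.card_union_le _ _)
  have := h.2.2.2
  omega

/-- the number of vertices, by classes -/
theorem card_classes [Fintype V] {c : V → ℕ} (R : Finset ℕ) :
    Fintype.card V = (Finset.univ.filter (fun x => c x ∉ R)).card +
      ∑ i ∈ R, (Finset.univ.filter (fun x => c x = i)).card := by
  classical
  have h1 : (Finset.univ.filter (fun x => c x ∈ R)).card =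
      ∑ i ∈ R, (Finset.univ.filter (fun x => c x = i)).card := by
    rw [Finset.card_eq_sum_card_fiberwise (f := c) (t := R)]
    · apply Finset.sum_congr rfl
      intro i hi
      congr 1
      ext x
      simp only [Finset.mem_filter, Finset.mem_univ, true_and]
      constructor
      · exact fun h => h.2
      · exact fun h => ⟨h ▸ hi, h⟩
    · intro x hx
      have := (Finset.mem_filter.1 (Finset.mem_coe.1 hx)).2
      exact this
  have h2 := Finset.card_filter_add_card_filter_not (s := (Finset.univ : Finset V)) (fun x => c x ∈ R)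
  rw [Finset.card_univ] at h2
  omega

/-- vertices outside of the classes of `R` -/
theorem card_rest [Fintype V] {G : SimpleGraph V} {K s : ℕ} {c : V → ℕ}
    (h : Sep G K s c) {R : Finset ℕ} {B : ℕ} (hR : ∀ i, 1 ≤ i → i ≤ s → i ∉ R →
      (Finset.univ.filter (fun x => c x = i)).card ≤ B) :
    (Finset.univ.filter (fun x => c x ∉ R)).card ≤ (s - 1) * K + s * B := by
  classical
  have h1 : Finset.univ.filter (fun x => c x ∉ R) ⊆ Finset.univ.filter (fun x => c x = 0) ∪
      (((Finset.Icc 1 s) \ R).biUnion (fun i => Finset.univ.filter (fun x => c x = i))) := by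
    intro x hx
    rw [Finset.mem_filter] at hx
    rw [Finset.mem_union, Finset.mem_filter, Finset.mem_biUnion]
    by_cases g : c x = 0
    · exact Or.inl ⟨Finset.mem_univ _, g⟩
    · refine Or.inr ⟨c x, ?_, Finset.mem_filter.2 ⟨Finset.mem_univ _, rfl⟩⟩
      rw [Finset.mem_sdiff, Finset.mem_Icc]
      exact ⟨⟨by omega, h.1 x⟩, hx.2⟩
  have h2 : (((Finset.Icc 1 s) \ R).biUnion
      (fun i => Finset.univ.filter (fun x => c x = i))).card ≤ s * B := by
    refine (Finset.card_biUnion_le).trans ?_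
    refine (Finset.sum_le_card_nsmul _ _ B ?_).trans ?_
    · intro i hi
      rw [Finset.mem_sdiff, Finset.mem_Icc] at hi
      exact hR i hi.1.1 hi.1.2 hi.2
    · rw [smul_eq_mul]
      apply Nat.mul_le_mul_right
      refine (Finset.card_le_card Finset.sdiff_subset).trans ?_
      simp
  have h3 := (Finset.card_le_card h1).trans (Finset.card_union_le _ _)
  have h4 := h.2.2.2
  omega

theorem core_bound [Fintype V] {G : SimpleGraph V} [DecidableRel G.Adj] {k K s : ℕ}
    (hσ : ∀ I : Finset V, G.IsIndepSet (I : Set V) → I.card = k + 1 →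
      Fintype.card V ≤ ∑ v ∈ I, dU G Finset.univ v) {c : V → ℕ} (h : Sep G K s c)
    {R : Finset ℕ} (hR : R ⊆ Finset.Icc 1 s) {i0 : ℕ} (hi0 : i0 ∈ R) {J : Finset V}
    (hJ : G.IsIndepSet (J : Set V)) (hJc : ∀ v ∈ J, c v ∉ R)
    (hJN : ∀ v ∈ J, ∀ i ∈ R, (Finset.univ.filter (fun w => c w = i ∧ G.Adj v w)).card ≤ K)
    (hcard : J.card + R.card = k + 2)
    (hbig : ∀ i ∈ R, J.card * K < (Finset.univ.filter (fun x => c x = i)).card)
    {M : ℕ} (hM : (Finset.univ.filter (fun x => c x ∉ R)).card ≤ M) :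
    (Finset.univ.filter (fun x => c x = i0)).card ≤
      J.card * (R.card * K + M) + R.card * (s * K) := by
  classical
  have hV : Nonempty V := by
    have := hbig i0 hi0
    have h0 : 0 < (Finset.univ.filter (fun x => c x = i0)).card := by omega
    obtain ⟨x, _⟩ := Finset.card_pos.1 h0
    exact ⟨x⟩
  have ht : ∀ i ∈ R, ∃ v, c v = i ∧ ∀ u ∈ J, ¬ G.Adj u v := by
    intro i hi
    by_contra hcon
    push Not at hcon
    have hsub : Finset.univ.filter (fun x => c x = i) ⊆
        J.biUnion (fun v => Finset.univ.filter (fun w => c w = i ∧ G.Adj v w)) := by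
      intro x hx
      have hx' := (Finset.mem_filter.1 hx).2
      obtain ⟨u, hu, hux⟩ := hcon x hx'
      rw [Finset.mem_biUnion]
      exact ⟨u, hu, Finset.mem_filter.2 ⟨Finset.mem_univ _, hx', hux⟩⟩
    have h1 := Finset.card_le_card hsub
    have h2 : (J.biUnion (fun v => Finset.univ.filter (fun w => c w = i ∧ G.Adj v w))).card ≤
        J.card * K := Finset.card_biUnion_le_card_mul _ _ _ (fun v hv => hJN v hv i hi)
    have h3 := hbig i hi
    omega
  choose! t ht1 ht2 using ht
  have hR0 : ∀ i ∈ R, i ≠ 0 := by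
    intro i hi
    have := (Finset.mem_Icc.1 (hR hi)).1
    omega
  have hinj : Set.InjOn t (R.erase i0 : Finset ℕ) := by
    intro a ha b hb hab
    have ha' := Finset.mem_of_mem_erase (Finset.mem_coe.1 ha)
    have hb' := Finset.mem_of_mem_erase (Finset.mem_coe.1 hb)
    rw [← ht1 a ha', ← ht1 b hb', hab]
  have hTc : ∀ v ∈ (R.erase i0).image t, c v ∈ R := by
    intro v hv
    obtain ⟨i, hi, rfl⟩ := Finset.mem_image.1 hv
    rw [ht1 i (Finset.mem_of_mem_erase hi)]
    exact Finset.mem_of_mem_erase hi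
  have hdisj : Disjoint J ((R.erase i0).image t) := by
    rw [Finset.disjoint_left]
    intro v hv hv'
    exact hJc v hv (hTc v hv')
  have hIcard : (J ∪ (R.erase i0).image t).card = k + 1 := by
    rw [Finset.card_union_of_disjoint hdisj, Finset.card_image_of_injOn hinj,
      Finset.card_erase_of_mem hi0]
    have : 0 < R.card := Finset.card_pos.2 ⟨i0, hi0⟩
    omega
  have hind : G.IsIndepSet ((J ∪ (R.erase i0).image t : Finset V) : Set V) := by
    intro a ha b hb hab hadj
    have ha := Finset.mem_coe.1 ha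
    have hb := Finset.mem_coe.1 hb
    rcases Finset.mem_union.1 ha with ha1 | ha1 <;> rcases Finset.mem_union.1 hb with hb1 | hb1
    · exact hJ (Finset.mem_coe.2 ha1) (Finset.mem_coe.2 hb1) hab hadj
    · obtain ⟨i, hi, rfl⟩ := Finset.mem_image.1 hb1
      exact ht2 i (Finset.mem_of_mem_erase hi) a ha1 hadj
    · obtain ⟨i, hi, rfl⟩ := Finset.mem_image.1 ha1
      exact ht2 i (Finset.mem_of_mem_erase hi) b hb1 hadj.symm
    · have e := h.2.2.1 a b hadj (hR0 _ (hTc a ha1)) (hR0 _ (hTc b hb1))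
      obtain ⟨i, hi, rfl⟩ := Finset.mem_image.1 ha1
      obtain ⟨j, hj, rfl⟩ := Finset.mem_image.1 hb1
      rw [ht1 i (Finset.mem_of_mem_erase hi), ht1 j (Finset.mem_of_mem_erase hj)] at e
      exact hab (by rw [e])
  have hsum := hσ _ hind hIcard
  rw [Finset.sum_union hdisj, Finset.sum_image hinj] at hsum
  have hJdeg : ∑ v ∈ J, dU G Finset.univ v ≤ J.card * (R.card * K + M) := by
    rw [← smul_eq_mul]
    apply Finset.sum_le_card_nsmul
    intro v hv
    unfold dU
    have hsub : Finset.univ.filter (fun w => G.Adj v w) ⊆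
        (R.biUnion (fun i => Finset.univ.filter (fun w => c w = i ∧ G.Adj v w))) ∪
          Finset.univ.filter (fun x => c x ∉ R) := by
      intro w hw
      rw [Finset.mem_filter] at hw
      rw [Finset.mem_union, Finset.mem_biUnion, Finset.mem_filter]
      by_cases g : c w ∈ R
      · exact Or.inl ⟨c w, g, Finset.mem_filter.2 ⟨Finset.mem_univ _, rfl, hw.2⟩⟩
      · exact Or.inr ⟨Finset.mem_univ _, g⟩
    have h1 := (Finset.card_le_card hsub).trans (Finset.card_union_le _ _)
    have h2 : (R.biUnion (fun i => Finset.univ.filter (fun w => c w = i ∧ G.Adj v w))).card ≤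
        R.card * K := Finset.card_biUnion_le_card_mul _ _ _ (fun i hi => hJN v hv i hi)
    omega
  have hTdeg : ∑ i ∈ R.erase i0, dU G Finset.univ (t i) ≤
      ∑ i ∈ R.erase i0, ((Finset.univ.filter (fun x => c x = i)).card) + R.card * (s * K) := by
    have h1 : ∑ i ∈ R.erase i0, dU G Finset.univ (t i) ≤
        ∑ i ∈ R.erase i0, ((Finset.univ.filter (fun x => c x = i)).card + s * K) := by
      apply Finset.sum_le_sum
      intro i hi
      have hi' := Finset.mem_of_mem_erase hi
      have h2 := deg_class h (v := t i) (by rw [ht1 i hi']; exact hR0 i hi')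
      rw [ht1 i hi'] at h2
      have h3 : (s - 1) * K ≤ s * K := Nat.mul_le_mul_right _ (by omega)
      omega
    rw [Finset.sum_add_distrib, Finset.sum_const, smul_eq_mul] at h1
    have h4 : (R.erase i0).card * (s * K) ≤ R.card * (s * K) :=
      Nat.mul_le_mul_right _ (Finset.card_erase_le)
    omega
  have hn := card_classes (c := c) R
  rw [← Finset.add_sum_erase R _ hi0] at hn
  omega

/-- adding vertices with many neighbours keeps the connectivity -/
theorem kc_extend {G : SimpleGraph V} {C Q : Finset V} {K : ℕ} (hCQ : C ⊆ Q) (hC : KC G C K)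
    [DecidableRel G.Adj] (hQ : ∀ v ∈ Q, v ∈ C ∨ K ≤ (C.filter (fun w => G.Adj v w)).card) :
    KC G Q K := by
  intro X hX hXK
  have key : ∀ v ∈ Q \ X, ∃ v' ∈ C \ (X ∩ C), Reach G (Q \ X) v v' := by
    intro v hv
    rw [Finset.mem_sdiff] at hv
    rcases hQ v hv.1 with h | h
    · exact ⟨v, Finset.mem_sdiff.2 ⟨h, fun hh => hv.2 (Finset.mem_inter.1 hh).1⟩,
        Relation.ReflTransGen.refl⟩
    · have : ∃ w ∈ C.filter (fun w => G.Adj v w), w ∉ X := by
        by_contra hcon
        push Not at hcon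
        have := Finset.card_le_card (show C.filter (fun w => G.Adj v w) ⊆ X from hcon)
        omega
      obtain ⟨w, hw, hwX⟩ := this
      rw [Finset.mem_filter] at hw
      refine ⟨w, Finset.mem_sdiff.2 ⟨hw.1, fun hh => hwX (Finset.mem_inter.1 hh).1⟩, ?_⟩
      exact Relation.ReflTransGen.single ⟨Finset.mem_sdiff.2 hv,
        Finset.mem_sdiff.2 ⟨hCQ hw.1, hwX⟩, hw.2⟩
  have hcon := hC (X ∩ C) Finset.inter_subset_right
    (lt_of_le_of_lt (Finset.card_le_card Finset.inter_subset_left) hXK)
  have hsub : C \ (X ∩ C) ⊆ Q \ X := by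
    intro w hw
    rw [Finset.mem_sdiff, Finset.mem_inter] at hw
    rw [Finset.mem_sdiff]
    exact ⟨hCQ hw.1, fun hh => hw.2 ⟨hh, hw.1⟩⟩
  intro u hu v hv
  obtain ⟨u', hu', hur⟩ := key u hu
  obtain ⟨v', hv', hvr⟩ := key v hv
  exact Relation.ReflTransGen.trans hur
    (Relation.ReflTransGen.trans ((hcon u' hu' v' hv').mono hsub) hvr.symm)

/-- an enumeration of a finite set of positive integers -/
theorem exists_enum (R : Finset ℕ) (h0 : 0 ∉ R) : ∃ e : ℕ → ℕ, e 0 = 0 ∧ (∀ m, e m ≤ R.card) ∧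
    (∀ m ∈ R, e m ≠ 0) ∧
    ∀ i, 1 ≤ i → i ≤ R.card → ∃ j ∈ R, ∀ m, (m = 0 ∨ m ∈ R) → (e m = i ↔ m = j) := by
  classical
  let E := R.equivFin
  refine ⟨fun m => if h : m ∈ R then (E ⟨m, h⟩).val + 1 else 0, by simp [h0], ?_, ?_, ?_⟩
  · intro m
    dsimp only
    split_ifs with h
    · exact (E ⟨m, h⟩).isLt
    · omega
  · intro m hm
    dsimp only
    rw [dif_pos hm]
    omega
  · intro i hi1 hi2
    refine ⟨(E.symm ⟨i - 1, by omega⟩).1, (E.symm ⟨i - 1, by omega⟩).2, ?_⟩
    intro m hm
    dsimp only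
    rcases hm with rfl | hm
    · rw [dif_neg h0]
      constructor
      · intro h
        omega
      · intro h
        exact absurd (h ▸ (E.symm ⟨i - 1, by omega⟩).2) h0
    · rw [dif_pos hm]
      constructor
      · intro h
        have h1 : E ⟨m, hm⟩ = ⟨i - 1, by omega⟩ := by
          apply Fin.ext
          show (E ⟨m, hm⟩).val = i - 1
          omega
        rw [← h1, Equiv.symm_apply_apply]
      · intro h
        have h1 : (⟨m, hm⟩ : R) = E.symm ⟨i - 1, by omega⟩ := Subtype.ext h
        rw [h1, Equiv.apply_symm_apply]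
        show i - 1 + 1 = i
        omega

/-- a window without class sizes -/
theorem exists_window (a : ℕ → ℕ) (s β K : ℕ) (hβ : 2 ≤ β) (hK : 1 ≤ K) :
    ∃ j ≤ s, ∀ i, 1 ≤ i → i ≤ s → a i < β ^ j * K ∨ β ^ (j + 1) * K ≤ a i := by
  by_contra hcon
  push Not at hcon
  choose! f hf1 hf2 hf3 hf4 using hcon
  obtain ⟨x, hx, y, hy, hxy, hfxy⟩ := Finset.exists_ne_map_eq_of_card_lt_of_maps_to
    (s := Finset.range (s + 1)) (t := Finset.Icc 1 s) (f := f) (by simp) (by
      intro j hj
      have hj' : j ≤ s := by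
        have := Finset.mem_range.1 (Finset.mem_coe.1 hj)
        omega
      exact Finset.mem_coe.2 (Finset.mem_Icc.2 ⟨hf1 j hj', hf2 j hj'⟩))
  have hx' : x ≤ s := by have := Finset.mem_range.1 hx; omega
  have hy' : y ≤ s := by have := Finset.mem_range.1 hy; omega
  have main : ∀ x y, x ≤ s → y ≤ s → f x = f y → x < y → False := by
    intro x y hx hy hfxy hlt
    have h1 := hf4 x hx
    have h2 := hf3 y hy
    rw [← hfxy] at h2
    have h3 : β ^ (x + 1) * K ≤ β ^ y * K :=
      Nat.mul_le_mul_right _ (Nat.pow_le_pow_right (by omega) hlt)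
    omega
  rcases lt_or_gt_of_ne hxy with h | h
  · exact main x y hx' hy' hfxy h
  · exact main y x hy' hx' hfxy.symm h

theorem exists_labels [Fintype V] (k K : ℕ) (hk : 1 ≤ k) (hK : 1 ≤ K) (G : SimpleGraph V)
    [DecidableRel G.Adj]
    (hσ : ∀ I : Finset V, G.IsIndepSet (I : Set V) → I.card = k + 1 →
      Fintype.card V ≤ ∑ v ∈ I, dU G Finset.univ v)
    (hn : (2 * (k + 2) ^ 3) ^ (k + 3) * K ≤ Fintype.card V) :
    ∃ (r : ℕ) (q : V → ℕ), r ≤ k + 1 ∧ (∀ v, q v ≤ r) ∧
      (∀ i, 1 ≤ i → i ≤ r → KC G (Finset.univ.filter (fun x => q x = i)) K ∧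
        K ≤ (Finset.univ.filter (fun x => q x = i)).card) ∧
      ∀ I : Finset V, (∀ v ∈ I, q v = 0) → G.IsIndepSet (I : Set V) → I.card + r ≤ k + 1 := by
  classical
  set β : ℕ := 2 * (k + 2) ^ 3 with hβ
  have hβ2 : 2 ≤ β := by
    have : 1 ≤ (k + 2) ^ 3 := Nat.one_le_pow _ _ (by omega)
    omega
  have hpow1 : ∀ m, 1 ≤ β ^ m := fun m => Nat.one_le_pow _ _ (by omega)
  have hVpos : 0 < Fintype.card V := by
    have : 1 * 1 ≤ β ^ (k + 3) * K := Nat.mul_le_mul (hpow1 _) hK
    omega
  obtain ⟨v0⟩ : Nonempty V := Fintype.card_pos_iff.1 hVpos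
  obtain ⟨s, ⟨⟨c, hc⟩, hs2, hs1⟩, hmax⟩ := exists_max_nat
    (fun s => (∃ c, Sep G K s c) ∧ s ≤ k + 2 ∧ 1 ≤ s) (k + 2)
    ⟨1, ⟨fun _ => 1, by
      refine ⟨fun _ => le_refl _, fun i h1 h2 => ⟨v0, le_antisymm h1 h2⟩, fun _ _ _ _ _ => rfl, ?_⟩
      simp⟩, by omega, le_refl _⟩
    (fun m hm => hm.2.1)
  -- fewer than `k + 2` classes
  have hsk : s ≤ k + 1 := by
    by_contra hcon
    have hsk : s = k + 2 := by omega
    subst hsk
    obtain ⟨i0, hi0, hi0max⟩ := Finset.exists_max_image (Finset.Icc 1 (k + 2))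
      (fun i => (Finset.univ.filter (fun x => c x = i)).card) ⟨1, by simp⟩
    have hcb := core_bound hσ hc (R := Finset.Icc 1 (k + 2)) (subset_refl _) hi0
      (J := ∅) (by simp [SimpleGraph.IsIndepSet]) (by simp) (by simp) (by simp) (by
        intro i hi
        obtain ⟨v, hv⟩ := hc.2.1 i (Finset.mem_Icc.1 hi).1 (Finset.mem_Icc.1 hi).2
        have : 0 < (Finset.univ.filter (fun x => c x = i)).card :=
          Finset.card_pos.2 ⟨v, Finset.mem_filter.2 ⟨Finset.mem_univ _, hv⟩⟩
        simpa using this) (le_refl _)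
    have hrest := card_rest hc (R := Finset.Icc 1 (k + 2)) (B := 0) (by
      intro i h1 h2 h3
      exact absurd (Finset.mem_Icc.2 ⟨h1, h2⟩) h3)
    have hcl := card_classes (c := c) (Finset.Icc 1 (k + 2))
    have hsum : ∑ i ∈ Finset.Icc 1 (k + 2), (Finset.univ.filter (fun x => c x = i)).card ≤
        (k + 2) * (Finset.univ.filter (fun x => c x = i0)).card := by
      refine (Finset.sum_le_card_nsmul _ _ _ hi0max).trans ?_
      simp
    simp only [Finset.card_empty, zero_mul, zero_add, Nat.card_Icc, Nat.add_sub_cancel, mul_zero,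
      add_zero] at hcb hrest
    have e1 : k + 2 + 1 - 1 = k + 2 := by omega
    have e2 : k + 2 - 1 = k + 1 := by omega
    rw [e2] at hrest
    have h1 : (k + 2) * (Finset.univ.filter (fun x => c x = i0)).card ≤
        (k + 2) * ((k + 2) * ((k + 2) * K)) := Nat.mul_le_mul_left _ hcb
    have h2 : β * K ≤ β ^ (k + 3) * K := by
      apply Nat.mul_le_mul_right
      calc β = β ^ 1 := (pow_one _).symm
        _ ≤ β ^ (k + 3) := Nat.pow_le_pow_right (by omega) (by omega)
    have h3 : β * K = (k + 2) * ((k + 2) * ((k + 2) * K)) + (k + 2) * ((k + 2) * ((k + 2) * K)) := by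
      rw [hβ]
      ring
    have h4 : (k + 1) * K < (k + 2) * ((k + 2) * ((k + 2) * K)) := by
      have : (k + 1) * K < (k + 2) * K := Nat.mul_lt_mul_of_pos_right (by omega) (by omega)
      nlinarith [Nat.zero_le ((k + 2) * K), Nat.zero_le k]
    omega
  -- the classes are highly connected
  have hKC : ∀ i, 1 ≤ i → i ≤ s → KC G (Finset.univ.filter (fun x => c x = i)) K := by
    intro i hi1 hi2
    by_contra hcon
    obtain ⟨c', hc'⟩ := sep_split hc hi1 hi2 hcon
    have := hmax (s + 1) ⟨⟨c', hc'⟩, by omega, by omega⟩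
    omega
  obtain ⟨j, hj, hwin⟩ := exists_window
    (fun i => (Finset.univ.filter (fun x => c x = i)).card) s β K hβ2 hK
  set R : Finset ℕ := (Finset.Icc 1 s).filter
    (fun i => β ^ (j + 1) * K ≤ (Finset.univ.filter (fun x => c x = i)).card) with hR
  have hRs : R ⊆ Finset.Icc 1 s := Finset.filter_subset _ _
  have hR0 : 0 ∉ R := by
    intro h
    have := (Finset.mem_Icc.1 (hRs h)).1
    omega
  have hRbig : ∀ i ∈ R, β ^ (j + 1) * K ≤ (Finset.univ.filter (fun x => c x = i)).card :=
    fun i hi => (Finset.mem_filter.1 hi).2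
  have hRcard : R.card ≤ s := by
    have := Finset.card_le_card hRs
    simpa using this
  have hrest := card_rest hc (R := R) (B := β ^ j * K) (by
    intro i h1 h2 h3
    rcases hwin i h1 h2 with h | h
    · exact le_of_lt h
    · exact absurd (Finset.mem_filter.2 ⟨Finset.mem_Icc.2 ⟨h1, h2⟩, h⟩) h3)
  have hb1 : 1 ≤ β ^ j := hpow1 j
  have hbig1 : β * (β ^ j * K) = β ^ (j + 1) * K := by
    rw [pow_succ]
    ring
  have hbK : K ≤ β ^ j * K := by
    calc K = 1 * K := (one_mul _).symm
      _ ≤ β ^ j * K := Nat.mul_le_mul_right _ hb1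
  -- bound for the rest
  have hrest2 : (Finset.univ.filter (fun x => c x ∉ R)).card ≤ 2 * (k + 1) * (β ^ j * K) := by
    have h1 : (s - 1) * K ≤ (k + 1) * (β ^ j * K) := Nat.mul_le_mul (by omega) hbK
    have h2 : s * (β ^ j * K) ≤ (k + 1) * (β ^ j * K) := Nat.mul_le_mul_right _ hsk
    have h3 : 2 * (k + 1) * (β ^ j * K) = (k + 1) * (β ^ j * K) + (k + 1) * (β ^ j * K) := by ring
    omega
  have hβk : 8 * ((k + 1) * (k + 1)) < 2 * β := by
    rw [hβ]
    nlinarith [Nat.zero_le (k ^ 3), Nat.zero_le (k ^ 2)]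
  have hRne : R.Nonempty := by
    by_contra hcon
    rw [Finset.not_nonempty_iff_eq_empty] at hcon
    have hcl := card_classes (c := c) R
    rw [hcon, Finset.sum_empty, ← hcon] at hcl
    have h1 : β ^ (j + 1) * K ≤ β ^ (k + 3) * K :=
      Nat.mul_le_mul_right _ (Nat.pow_le_pow_right (by omega) (by omega))
    have h2 : 2 * (k + 1) * (β ^ j * K) < β * (β ^ j * K) := by
      apply Nat.mul_lt_mul_of_pos_right _ (by omega)
      nlinarith [Nat.zero_le (k * k)]
    omega
  -- the assignment
  let N : ℕ → V → ℕ := fun i v => (Finset.univ.filter (fun w => c w = i ∧ G.Adj v w)).card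
  let φ : V → ℕ := fun v => if c v ∈ R then c v else
    if h : ∃ i ∈ R, K ≤ N i v then h.choose else 0
  have hφ1 : ∀ v, φ v = 0 ∨ φ v ∈ R := by
    intro v
    by_cases h1 : c v ∈ R
    · right
      show (if c v ∈ R then c v else if h : ∃ i ∈ R, K ≤ N i v then h.choose else 0) ∈ R
      rw [if_pos h1]
      exact h1
    by_cases h2 : ∃ i ∈ R, K ≤ N i v
    · right
      show (if c v ∈ R then c v else if h : ∃ i ∈ R, K ≤ N i v then h.choose else 0) ∈ R
      rw [if_neg h1, dif_pos h2]
      exact h2.choose_spec.1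
    · left
      show (if c v ∈ R then c v else if h : ∃ i ∈ R, K ≤ N i v then h.choose else 0) = 0
      rw [if_neg h1, dif_neg h2]
  have hφ2 : ∀ v, c v ∈ R → φ v = c v := by
    intro v h1
    show (if c v ∈ R then c v else if h : ∃ i ∈ R, K ≤ N i v then h.choose else 0) = c v
    rw [if_pos h1]
  have hφ3 : ∀ v, ∀ i ∈ R, φ v = i → c v = i ∨ K ≤ N i v := by
    intro v i hi hv
    by_cases h1 : c v ∈ R
    · left
      rw [← hφ2 v h1]
      exact hv
    · right
      have hv' : (if c v ∈ R then c v else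
        if h : ∃ i ∈ R, K ≤ N i v then h.choose else 0) = i := hv
      rw [if_neg h1] at hv'
      by_cases h2 : ∃ i ∈ R, K ≤ N i v
      · rw [dif_pos h2] at hv'
        have := h2.choose_spec.2
        rw [hv'] at this
        exact this
      · rw [dif_neg h2] at hv'
        exact absurd (hv' ▸ hi) hR0
  have hφ4 : ∀ v, φ v = 0 → c v ∉ R ∧ ∀ i ∈ R, N i v ≤ K := by
    intro v hv
    have h1 : c v ∉ R := by
      intro h1
      rw [hφ2 v h1] at hv
      exact hR0 (hv ▸ h1)
    refine ⟨h1, ?_⟩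
    by_contra hcon
    push Not at hcon
    obtain ⟨i, hi, hiK⟩ := hcon
    have h2 : ∃ i ∈ R, K ≤ N i v := ⟨i, hi, le_of_lt hiK⟩
    have hv' : (if c v ∈ R then c v else
        if h : ∃ i ∈ R, K ≤ N i v then h.choose else 0) = 0 := hv
    rw [if_neg h1, dif_pos h2] at hv'
    exact hR0 (hv' ▸ h2.choose_spec.1)
  obtain ⟨e, he0, he1, he2, he3⟩ := exists_enum R hR0
  refine ⟨R.card, fun v => e (φ v), by omega, fun v => he1 _, ?_, ?_⟩
  · intro i hi1 hi2
    obtain ⟨m, hm, hme⟩ := he3 i hi1 hi2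
    have hQ : Finset.univ.filter (fun x => e (φ x) = i) =
        Finset.univ.filter (fun x => φ x = m) := by
      apply Finset.filter_congr
      intro x _
      exact hme _ (hφ1 x)
    rw [hQ]
    have hCQ : Finset.univ.filter (fun x => c x = m) ⊆ Finset.univ.filter (fun x => φ x = m) := by
      intro x hx
      rw [Finset.mem_filter] at hx ⊢
      refine ⟨hx.1, ?_⟩
      rw [hφ2 x (by rw [hx.2]; exact hm), hx.2]
    have hm' := Finset.mem_Icc.1 (hRs hm)
    constructor
    · apply kc_extend hCQ (hKC m hm'.1 hm'.2)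
      intro v hv
      rcases hφ3 v m hm (Finset.mem_filter.1 hv).2 with h | h
      · exact Or.inl (Finset.mem_filter.2 ⟨Finset.mem_univ _, h⟩)
      · right
        rw [Finset.filter_filter]
        exact h
    · refine le_trans ?_ (Finset.card_le_card hCQ)
      refine le_trans ?_ (hRbig m hm)
      calc K = 1 * K := (one_mul _).symm
        _ ≤ β ^ (j + 1) * K := Nat.mul_le_mul_right _ (hpow1 _)
  · intro I hI hIind
    by_contra hcon
    have hI0 : ∀ v ∈ I, φ v = 0 := by
      intro v hv
      rcases hφ1 v with h | h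
      · exact h
      · exact absurd (hI v hv) (he2 _ h)
    obtain ⟨J, hJI, hJcard⟩ := Finset.exists_subset_card_eq (s := I) (n := k + 2 - R.card)
      (by omega)
    obtain ⟨i0, hi0⟩ := hRne
    have hJk : J.card ≤ k + 1 := by
      have : 0 < R.card := Finset.card_pos.2 ⟨i0, hi0⟩
      omega
    have hcb := core_bound hσ hc hRs hi0 (J := J)
      (fun a ha b hb hab => hIind (hJI ha) (hJI hb) hab)
      (fun v hv => (hφ4 v (hI0 v (hJI hv))).1)
      (fun v hv i hi => (hφ4 v (hI0 v (hJI hv))).2 i hi)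
      (by omega) (by
        intro i hi
        refine lt_of_lt_of_le ?_ (hRbig i hi)
        rw [← hbig1]
        calc J.card * K ≤ (k + 1) * (β ^ j * K) := Nat.mul_le_mul hJk hbK
          _ < β * (β ^ j * K) := by
            apply Nat.mul_lt_mul_of_pos_right _ (by omega)
            nlinarith [Nat.zero_le (k * k)]) hrest2
    have h1 : J.card * (R.card * K + 2 * (k + 1) * (β ^ j * K)) ≤
        (k + 1) * ((k + 1) * (β ^ j * K) + 2 * (k + 1) * (β ^ j * K)) := by
      apply Nat.mul_le_mul hJk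
      have : R.card * K ≤ (k + 1) * (β ^ j * K) := Nat.mul_le_mul (by omega) hbK
      omega
    have h2 : R.card * (s * K) ≤ (k + 1) * ((k + 1) * (β ^ j * K)) :=
      Nat.mul_le_mul (by omega) (Nat.mul_le_mul hsk hbK)
    have h3 : 4 * ((k + 1) * (k + 1)) * (β ^ j * K) < β * (β ^ j * K) := by
      apply Nat.mul_lt_mul_of_pos_right _ (by omega)
      omega
    have h4 : (k + 1) * ((k + 1) * (β ^ j * K) + 2 * (k + 1) * (β ^ j * K)) +
        (k + 1) * ((k + 1) * (β ^ j * K)) = 4 * ((k + 1) * (k + 1)) * (β ^ j * K) := by ring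
    have h5 := hRbig i0 hi0
    omega

end Pool.Agent.TFL
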