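import Pool.Agent.TFL.Alpha
import Pool.Agent.TFL.HamConn
import Pool.Agent.TFL.EdgeRem
import Pool.Agent.TFL.FewCross
import Pool.Agent.TFL.Labels

/-! Graphs of large order compared with the independence number. -/

namespace Pool.Agent.TFL

open List Pool.Agent.TF82

universe u

set_option linter.unusedSectionVars false
set_option linter.unusedVariables false

variable {V : Type u} [DecidableEq V]

theorem CovX.mono {G : SimpleGraph V} {q : V → ℕ} {k m m' : ℕ} (h : CovX G q k m)
    (hm : m ≤ m') : CovX G q k m' := by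
  obtain ⟨L, h1, h2, h3, h4, h5⟩ := h
  exact ⟨L, h1, h2, h3, h4, h5.trans hm⟩

theorem CovX.le {G H : SimpleGraph V} {q : V → ℕ} {k m : ℕ} (h : CovX G q k m)
    (hle : ∀ x y, G.Adj x y → H.Adj x y) : CovX H q k m := by
  obtain ⟨L, h1, h2, h3, h4, h5⟩ := h
  refine ⟨L, h1, ?_, h3, h4, h5⟩
  intro c hc
  obtain ⟨c1, c2, c3, c4⟩ := h2 c hc
  exact ⟨c1, c2, List.IsChain.imp (fun x y hxy => hle x y hxy) c3,
    fun x hx y hy => hle x y (c4 x hx y hy)⟩

theorem Reach.imp {G H : SimpleGraph V} (hle : ∀ x y, G.Adj x y → H.Adj x y) {U : Finset V}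
    {a b : V} (h : Reach G U a b) : Reach H U a b := by
  unfold Reach at *
  induction h with
  | refl => exact Relation.ReflTransGen.refl
  | tail _ hbc ih =>
    exact Relation.ReflTransGen.tail ih ⟨hbc.1, hbc.2.1, hle _ _ hbc.2.2⟩

theorem KC.imp {G H : SimpleGraph V} (hle : ∀ x y, G.Adj x y → H.Adj x y) {Q : Finset V}
    {K : ℕ} (h : KC G Q K) : KC H Q K := by
  intro X hX hXc u hu v hv
  exact Reach.imp hle (h X hX hXc u hu v hv)

/-- removing all added edges one after the other -/
theorem remove_all [Fintype V] {G : SimpleGraph V} (q : V → ℕ) {a k m K : ℕ} (ha : 1 ≤ a)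
    (hα : ∀ I : Finset V, G.IsIndepSet (I : Set V) → I.card ≤ a)
    (hKb : (2 * a) * (m + k + 1) + a + 3 ≤ K)
    (hcl : ∀ u, q u ≠ 0 → KC G (Finset.univ.filter (fun x => q x = q u)) K ∧
      K ≤ (Finset.univ.filter (fun x => q x = q u)).card) : ∀ (N : ℕ) (H : SimpleGraph V)
    [DecidableRel H.Adj], (∀ x y, G.Adj x y → H.Adj x y) →
    (∀ x y, H.Adj x y → G.Adj x y ∨ (q x = q y ∧ q x ≠ 0)) →
    (∀ [DecidableRel G.Adj], (Finset.univ.filter
      (fun p : V × V => H.Adj p.1 p.2 ∧ ¬ G.Adj p.1 p.2)).card ≤ N) →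
    CovX H q k m → CovX G q k m := by
  classical
  intro N
  induction N with
  | zero =>
    intro H _ hle hadd hN h
    have h0 := hN
    apply h.le
    intro x y hxy
    by_contra hcon
    have hmem : (x, y) ∈ Finset.univ.filter
      (fun p : V × V => H.Adj p.1 p.2 ∧ ¬ G.Adj p.1 p.2) := by simp [hxy, hcon]
    rw [Finset.card_eq_zero.1 (Nat.le_zero.1 h0)] at hmem
    simp at hmem
  | succ N ih =>
    intro H _ hle hadd hN h
    by_cases hex : ∃ u v, H.Adj u v ∧ ¬ G.Adj u v
    · obtain ⟨u, v, huv, hnuv⟩ := hex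
      have huv' : u ≠ v := huv.ne
      have hq : q u = q v ∧ q u ≠ 0 := by
        rcases hadd u v huv with h1 | h1
        · exact absurd h1 hnuv
        · exact h1
      let H' : SimpleGraph V := H.deleteEdges {s(u, v)}
      have hH' : ∀ x y, H'.Adj x y ↔ H.Adj x y ∧ ¬ ((x = u ∧ y = v) ∨ (x = v ∧ y = u)) := by
        intro x y
        rw [SimpleGraph.deleteEdges_adj, Set.mem_singleton_iff, Sym2.eq_iff]
      have hGH' : ∀ x y, G.Adj x y → H'.Adj x y := by
        intro x y hxy
        rw [hH']
        refine ⟨hle x y hxy, ?_⟩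
        rintro (⟨rfl, rfl⟩ | ⟨rfl, rfl⟩)
        · exact hnuv hxy
        · exact hnuv hxy.symm
      have h1 : CovX H' q k m := by
        obtain ⟨hc1, hc2⟩ := hcl u hq.2
        have hα' : ∀ I : Finset V, H'.IsIndepSet (I : Set V) → I.card ≤ a := by
          intro I hI
          apply hα
          intro x hx y hy hxy hadj
          exact hI hx hy hxy (hGH' x y hadj)
        refine edge_removal_of (G := H') (G' := H) q (a := a) (K := K) (u := u) (v := v) ?_ huv'
          hq.1 ?_ hα' (hc1.imp hGH') hKb hc2 h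
        · intro Q' hQ' hKC x hx y hy hxy
          exact ham_conn ha hQ' hKC hx hy hxy
        · intro x y hxy
          rw [hH']
          tauto
      refine ih H' hGH' ?_ ?_ h1
      · intro x y hxy
        exact hadd x y ((hH' x y).1 hxy).1
      · intro _
        have hsub : (Finset.univ.filter (fun p : V × V => H'.Adj p.1 p.2 ∧ ¬ G.Adj p.1 p.2)) ⊂
            (Finset.univ.filter (fun p : V × V => H.Adj p.1 p.2 ∧ ¬ G.Adj p.1 p.2)) := by
          rw [Finset.ssubset_iff_of_subset]
          · exact ⟨(u, v), by simp [huv, hnuv], by simp [hH']⟩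
          · intro p hp
            rw [Finset.mem_filter] at hp ⊢
            exact ⟨hp.1, ((hH' _ _).1 hp.2.1).1, hp.2.2⟩
        have h2 := Finset.card_lt_card hsub
        have h3 := @hN _
        omega
    · push Not at hex
      exact h.le hex

/-- the bound for the number of label changes -/
def mB (k : ℕ) : ℕ := 3 * (k + 1) ^ 2

/-- the connectivity needed -/
def kB (k a : ℕ) : ℕ := (2 * a) * (mB k + k + 1) + a + 3

theorem cov_large [Fintype V] (k a : ℕ) (hk : 1 ≤ k) (ha : 1 ≤ a) (G : SimpleGraph V)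
    [DecidableRel G.Adj]
    (hα : ∀ I : Finset V, G.IsIndepSet (I : Set V) → I.card ≤ a)
    (hC : ∀ I : Finset V, G.IsIndepSet (I : Set V) → ∀ v ∈ I, I.card + 1 ≤ dU G Finset.univ v)
    (hσ : ∀ I : Finset V, G.IsIndepSet (I : Set V) → I.card = k + 1 →
      Fintype.card V ≤ ∑ v ∈ I, dU G Finset.univ v)
    (hn : (2 * (k + 2) ^ 3) ^ (k + 3) * kB k a ≤ Fintype.card V) : Cov G k := by
  classical
  have hK1 : 1 ≤ kB k a := by unfold kB; omega
  obtain ⟨r, q, hr, hqr, hcl, hJ⟩ := exists_labels k (kB k a) hk hK1 G hσ hn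
  have hJr : r ≤ k + 1 := hr
  let H : SimpleGraph V :=
    { Adj := fun x y => G.Adj x y ∨ (x ≠ y ∧ q x = q y ∧ q x ≠ 0)
      symm := ⟨by
        rintro x y (h | h)
        · exact Or.inl h.symm
        · exact Or.inr ⟨h.1.symm, h.2.1.symm, h.2.1 ▸ h.2.2⟩⟩
      loopless := ⟨by
        rintro x (h | h)
        · exact G.loopless.irrefl x h
        · exact h.1 rfl⟩ }
  have hHa : ∀ x y, H.Adj x y ↔ G.Adj x y ∨ (x ≠ y ∧ q x = q y ∧ q x ≠ 0) := fun x y => Iff.rfl
  have hle : ∀ x y, G.Adj x y → H.Adj x y := fun x y h => Or.inl h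
  have hind : ∀ I : Finset V, H.IsIndepSet (I : Set V) → G.IsIndepSet (I : Set V) := by
    intro I hI x hx y hy hxy h
    exact hI hx hy hxy (hle x y h)
  have hd : ∀ x, dU G Finset.univ x ≤ dU H Finset.univ x := by
    intro x
    unfold dU
    apply Finset.card_le_card
    intro w hw
    rw [Finset.mem_filter] at hw ⊢
    exact ⟨hw.1, hle _ _ hw.2⟩
  have hcov : Cov H k := by
    apply cover_alpha k H
    · intro I hI v hv
      exact (hC I (hind I hI) v hv).trans (hd v)
    · intro I hI hIk
      exact (hσ I (hind I hI) hIk).trans (Finset.sum_le_sum (fun v _ => hd v))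
    · intro I hI
      have h1 : (I.filter (fun x => q x = 0)).card + r ≤ k + 1 := by
        apply hJ
        · intro v hv
          exact (Finset.mem_filter.1 hv).2
        · intro x hx y hy hxy
          exact hind I hI (Finset.mem_filter.1 hx).1 (Finset.mem_filter.1 hy).1 hxy
      have h2 : (I.filter (fun x => ¬ q x = 0)).card ≤ r := by
        have h3 : (I.filter (fun x => ¬ q x = 0)).card ≤ (Finset.Icc 1 r).card := by
          apply Finset.card_le_card_of_injOn q
          · intro x hx
            rw [Finset.mem_coe, Finset.mem_filter] at hx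
            rw [Finset.mem_coe, Finset.mem_Icc]
            exact ⟨Nat.one_le_iff_ne_zero.2 hx.2, hqr x⟩
          · intro x hx y hy hxy
            by_contra hne
            rw [Finset.mem_coe, Finset.mem_filter] at hx hy
            exact hI hx.1 hy.1 hne (Or.inr ⟨hne, hxy, hx.2⟩)
        rwa [Nat.card_Icc, Nat.add_sub_cancel] at h3
      have h4 := Finset.card_filter_add_card_filter_not (s := I) (fun x => q x = 0)
      omega
  have hX : CovX H q k (r * r + 2 * r * (k + 1 - r)) := by
    apply few_cross q hqr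
    · intro u v huv hq hq0
      exact Or.inr ⟨huv, hq, hq0⟩
    · intro I hI0 hI
      have := hJ I hI0 (hind I hI)
      omega
    · exact hcov
  have hX' : CovX H q k (mB k) := by
    apply hX.mono
    unfold mB
    obtain ⟨c, hc⟩ := Nat.exists_eq_add_of_le hJr
    rw [hc, Nat.add_sub_cancel_left]
    nlinarith
  have hcl' : ∀ u, q u ≠ 0 → KC G (Finset.univ.filter (fun x => q x = q u)) (kB k a) ∧
      kB k a ≤ (Finset.univ.filter (fun x => q x = q u)).card := by
    intro u hu
    exact hcl (q u) (Nat.one_le_iff_ne_zero.2 hu) (hqr u)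
  apply CovX.cov (q := q) (m := mB k)
  refine remove_all q ha hα le_rfl hcl' (Fintype.card (V × V)) H hle ?_ ?_ hX'
  · intro x y hxy
    rcases hxy with h | h
    · exact Or.inl h
    · exact Or.inr ⟨h.2.1, h.2.2⟩
  · intro _
    exact Finset.card_le_univ _

end Pool.Agent.TFL
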